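import Pool.Agent.NPC.Dec

/-!
# Single-vehicle scheduling on a path: the definitions
-/

set_option autoImplicit false

namespace Pool.Agent.NPC.Line129

/-- An instance. `I.1.1` lists the jobs in the order of the vertices `0, 1, …` along the path, each
job as the pair of its release time and its handling time; `I.1.2` lists the edges in the same
order, the edge `k` joining the vertices `k` and `k + 1`, as the pair of the travel time from `k` to
`k + 1` and the travel time from `k + 1` to `k`; `I.2.1` is the start vertex and `I.2.2` is the
bound `K`. All numbers are written in binary. -/
abbrev Inst : Type := (List (ℕ × ℕ) × List (ℕ × ℕ)) × (ℕ × ℕ)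

/-- the travel time from the vertex `i` to the vertex `j` along the path with the list of edges `E`:
the times of the edges between them, forwards if `i ≤ j` and backwards if `j ≤ i` -/
def travel (E : List (ℕ × ℕ)) (i j : ℕ) : ℕ :=
  ∑ k ∈ Finset.Ico i j, (E.getD k (0, 0)).1 + ∑ k ∈ Finset.Ico j i, (E.getD k (0, 0)).2

/-- The vehicle is at the vertex `p` at time `t` and has to process the jobs in the list, in this
order, and to return to the vertex `s`: the time at which it is back at `s`. For each job `v` in
turn the vehicle travels to `v`, waits until the release time of `v` if it arrives before it, and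
processes `v`. -/
def finish (J E : List (ℕ × ℕ)) (s : ℕ) : ℕ → ℕ → List ℕ → ℕ
  | t, p, [] => t + travel E p s
  | t, p, v :: π =>
    finish J E s (max (t + travel E p v) (J.getD v (0, 0)).1 + (J.getD v (0, 0)).2) v π

/-- the completion time `C(π)`: the vehicle starts at the start vertex at time `0` -/
def completion (I : Inst) (π : List ℕ) : ℕ := finish I.1.1 I.1.2 I.2.1 0 I.2.1 π

/-- There is one edge fewer than there are vertices, and the start vertex is a vertex. -/
def IsInst (I : Inst) : Prop := I.1.2.length + 1 = I.1.1.length ∧ I.2.1 < I.1.1.length

/-- **The single-vehicle scheduling problem on a path**, decision version: some permutation of all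
the jobs has completion time at most `K`. -/
def LineVehicle (I : Inst) : Prop :=
  IsInst I ∧ ∃ π : List ℕ, π.Perm (List.range I.1.1.length) ∧ completion I π ≤ I.2.2

/-- All handling times are positive. -/
def PosHandling (I : Inst) : Prop := ∀ j ∈ I.1.1, 0 < j.2

/-- The travel times are positive and symmetric, and the vehicle starts at an end of the path. -/
def Simple (I : Inst) : Prop := (∀ e ∈ I.1.2, 0 < e.1 ∧ e.1 = e.2) ∧ I.2.1 = 0

end Pool.Agent.NPC.Line129
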