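import Pool.Agent.H671R2.SubsetSum
import Pool.Agent.H129.LineDefs

/-!
# Scheduling a vehicle on a line with release and handling times is NP-hard

A vehicle moves on a path; every vertex holds a job with a release time and a handling time.  The
vehicle starts at a vertex, processes all the jobs and returns.  We show that the minimisation of
its completion time is NP-hard, by a reduction from the subset sum problem with items
`c 0, …, c (n - 1)` and target `t`.

Idea.  Large jobs `L n, B (n - 1), L (n - 1), …, B 0, L 0, D` have to be processed in this order,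
because of their release times; the jobs `L i` are at the left end of the path, the job `B i` is at
the distance `(i + 1) * G` and `D` is at the distance `(n + 1) * G`.  The item `i` is at the
distance `(i + 1) * G + c i`, takes the time `c i` and is released when `L (i + 1)` is.  It can be
processed between `L (i + 1)` and `L i`, which costs the detour `2 * c i`, or after `L 0`, on the
way to `D` or back, which costs no detour.  The release time of `L 0` leaves the time `t` for the
items which are processed after it, and the bound on the completion time leaves the time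
`2 * (∑ c i - t)` for the detours.  So the items which are processed after `L 0` have the sum `t`.
-/

set_option autoImplicit false

namespace Pool.Agent.NPC.Line129

open Pool.Agent.NPC.R671.SS

section abs
variable (d : ℕ → ℕ → ℕ) (h : ℕ → ℕ) (s : ℕ)

/-- travel time of the tour -/
def trav : ℕ → List ℕ → ℕ
  | p, [] => d p s
  | p, v :: π => d p v + trav v π

/-- total handling time -/
def hsum (π : List ℕ) : ℕ := (π.map h).sum

@[simp] theorem hsum_nil : hsum h [] = 0 := rfl
@[simp] theorem hsum_cons (v : ℕ) (π : List ℕ) : hsum h (v :: π) = h v + hsum h π := by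
  simp [hsum]
@[simp] theorem hsum_append (π ρ : List ℕ) : hsum h (π ++ ρ) = hsum h π + hsum h ρ := by
  simp [hsum]

theorem finish_le_iff (J E : List (ℕ × ℕ)) (s K : ℕ) (π : List ℕ) : ∀ t p : ℕ,
    finish J E s t p π ≤ K ↔
      t + trav (travel E) s p π + hsum (fun v => (J.getD v (0, 0)).2) π ≤ K ∧
      ∀ v σ, v :: σ <:+ π → (J.getD v (0, 0)).1 + (J.getD v (0, 0)).2 +
        trav (travel E) s v σ + hsum (fun v => (J.getD v (0, 0)).2) σ ≤ K := by
  induction π with
  | nil => intro t p; simp [finish, trav]
  | cons w π ih =>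
    intro t p
    rw [finish, ih]
    simp only [trav, hsum_cons, List.suffix_cons_iff, List.cons.injEq]
    constructor
    · rintro ⟨h1, h2⟩
      refine ⟨by have := le_max_left (t + travel E p w) (J.getD w (0, 0)).1; omega, ?_⟩
      rintro v σ (⟨rfl, rfl⟩ | h3)
      · have := le_max_right (t + travel E p v) (J.getD v (0, 0)).1; omega
      · exact h2 v σ h3
    · rintro ⟨h1, h2⟩
      refine ⟨?_, fun v σ h3 => h2 v σ (Or.inr h3)⟩
      have := h2 w π (Or.inl ⟨rfl, rfl⟩)
      rcases max_cases (t + travel E p w) (J.getD w (0, 0)).1 with h3 | h3 <;> omega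

/-- what comes after `v` -/
def aft (v : ℕ) : List ℕ → List ℕ
  | [] => []
  | u :: π => if u = v then π else aft v π

theorem aft_split {v : ℕ} {π : List ℕ} (hv : v ∈ π) : ∃ α, π = α ++ v :: aft v π := by
  induction π with
  | nil => simp at hv
  | cons u π ih =>
    by_cases huv : u = v
    · subst huv
      exact ⟨[], by simp [aft]⟩
    · have hv' : v ∈ π := by
        rcases List.mem_cons.1 hv with h | h
        · exact absurd h.symm huv
        · exact h
      obtain ⟨α, hα⟩ := ih hv'
      refine ⟨u :: α, ?_⟩
      simp only [aft, huv, if_false, List.cons_append]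
      rw [← hα]

theorem aft_append {v : ℕ} {α σ : List ℕ} (hv : v ∉ α) : aft v (α ++ v :: σ) = σ := by
  induction α with
  | nil => simp [aft]
  | cons u α ih =>
    simp only [List.mem_cons, not_or] at hv
    simp only [List.cons_append, aft]
    rw [if_neg (fun h => hv.1 h.symm)]
    exact ih hv.2

theorem aft_mem {v w : ℕ} {π : List ℕ} (h : w ∈ aft v π) : w ∈ π := by
  by_cases hv : v ∈ π
  · obtain ⟨α, hα⟩ := aft_split hv
    rw [hα]
    simp [h]
  · exfalso
    have : ∀ π : List ℕ, v ∉ π → aft v π = [] := by
      intro π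
      induction π with
      | nil => simp [aft]
      | cons u π ih =>
        intro hv
        simp only [List.mem_cons, not_or] at hv
        simp only [aft]
        rw [if_neg (fun h => hv.1 h.symm)]
        exact ih hv.2
    rw [this π hv] at h
    simp at h

theorem mem_of_aft {v w : ℕ} {π : List ℕ} (h : w ∈ aft v π) : v ∈ π := by
  by_contra hv
  have : ∀ π : List ℕ, v ∉ π → aft v π = [] := by
    intro π
    induction π with
    | nil => simp [aft]
    | cons u π ih =>
      intro hv
      simp only [List.mem_cons, not_or] at hv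
      simp only [aft]
      rw [if_neg (fun h => hv.1 h.symm)]
      exact ih hv.2
  rw [this π hv] at h
  simp at h

theorem aft_nodup {v : ℕ} {π : List ℕ} (hπ : π.Nodup) : (aft v π).Nodup := by
  induction π with
  | nil => simp [aft]
  | cons u π ih =>
    rw [List.nodup_cons] at hπ
    simp only [aft]
    split_ifs
    · exact hπ.2
    · exact ih hπ.2

theorem not_mem_aft_self {v : ℕ} {π : List ℕ} (hπ : π.Nodup) : v ∉ aft v π := by
  intro hv
  obtain ⟨α, hα⟩ := aft_split (aft_mem hv)
  rw [hα, List.nodup_append] at hπ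
  exact (List.nodup_cons.1 hπ.2.1).1 hv

/-- after `v`, up to and after `w` -/
theorem aft_aft {v w : ℕ} {π : List ℕ} (hπ : π.Nodup) (hw : w ∈ aft v π) :
    ∃ β, aft v π = β ++ w :: aft w π := by
  have hv := mem_of_aft hw
  obtain ⟨α, hα⟩ := aft_split hv
  obtain ⟨β, γ, hβ⟩ := List.append_of_mem hw
  refine ⟨β, ?_⟩
  have h1 : π = (α ++ v :: β) ++ w :: γ := by
    rw [hα, hβ]; simp
  have h2 : w ∉ α ++ v :: β := by
    intro h3
    rw [h1, List.nodup_append] at hπ
    exact hπ.2.2 w h3 w (by simp) rfl
  have h3 : aft w π = γ := by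
    rw [h1]; exact aft_append h2
  rw [h3, hβ]

theorem aft_trans {u v w : ℕ} {π : List ℕ} (hπ : π.Nodup) (h1 : v ∈ aft u π) (h2 : w ∈ aft v π) :
    w ∈ aft u π := by
  obtain ⟨β, hβ⟩ := aft_aft hπ h1
  rw [hβ]
  simp [h2]

theorem aft_total {v w : ℕ} {π : List ℕ} (hv : v ∈ π) (hw : w ∈ π) (hne : v ≠ w) :
    w ∈ aft v π ∨ v ∈ aft w π := by
  induction π with
  | nil => simp at hv
  | cons u π ih =>
    simp only [aft]
    by_cases h1 : u = v
    · subst h1
      left
      simp only [if_true]
      rcases List.mem_cons.1 hw with h | h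
      · exact absurd h.symm hne
      · exact h
    · by_cases h2 : u = w
      · subst h2
        right
        simp only [if_true]
        rcases List.mem_cons.1 hv with h | h
        · exact absurd h hne
        · exact h
      · rw [if_neg h1, if_neg h2]
        refine ih ?_ ?_
        · rcases List.mem_cons.1 hv with h | h
          · exact absurd h.symm h1
          · exact h
        · rcases List.mem_cons.1 hw with h | h
          · exact absurd h.symm h2
          · exact h

theorem hsum_ge {σ : List ℕ} (hσ : σ.Nodup) {S : Finset ℕ} (hS : ∀ x ∈ S, x ∈ σ) :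
    ∑ x ∈ S, h x ≤ hsum h σ := by
  have : hsum h σ = ∑ x ∈ σ.toFinset, h x := by
    rw [List.sum_toFinset _ hσ]; rfl
  rw [this]
  exact Finset.sum_le_sum_of_subset (fun x hx => List.mem_toFinset.2 (hS x hx))

theorem trav_append_ge (htri : ∀ x y z, d x z ≤ d x y + d y z) (p q : ℕ) (σ α : List ℕ) :
    d p q + trav d s q σ ≤ trav d s p (α ++ q :: σ) := by
  induction α generalizing p with
  | nil => simp [trav]
  | cons u α ih =>
    simp only [List.cons_append, trav]
    have h1 := ih u
    have h2 := htri p u q
    omega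

theorem trav_ge (htri : ∀ x y z, d x z ≤ d x y + d y z) (p : ℕ) (σ : List ℕ) :
    d p s ≤ trav d s p σ := by
  induction σ generalizing p with
  | nil => simp [trav]
  | cons u σ ih =>
    simp only [trav]
    have h1 := ih u
    have h2 := htri p u s
    omega

/-- distance on the line -/
def dd (x y : ℕ) : ℕ := (x - y) + (y - x)

theorem dd_tri (x y z : ℕ) : dd x z ≤ dd x y + dd y z := by unfold dd; omega

end abs

/-! ### The instance -/

section main
variable (n t : ℕ) (c : ℕ → ℕ)

/-- the sum of the items -/
def AA : ℕ := ∑ i ∈ Finset.range n, c i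

/-- a large distance -/
def GG : ℕ := 3 * AA n c + 4 * ((n + 1) * (n + 1))

/-- a very large handling time -/
def MM : ℕ := (n + 2) * (n + 2) * GG n c

/-- the extra time -/
def EE : ℕ := AA n c + 2 * (AA n c - t)

/-- the bound -/
def KK : ℕ := 2 * (n + 1) * GG n c + n * (n + 1) * GG n c + (2 * n + 2) * MM n c + EE n t c -
  (n + n * n)

/-- positions of the vertices -/
def pos (v : ℕ) : ℕ :=
  if v ≤ n then v else if v = 3 * n + 1 then (n + 1) * GG n c else
    ((v - n - 1) / 2 + 1) * GG n c + (if (v - n - 1) % 2 = 0 then 0 else c ((v - n - 1) / 2))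

/-- handling times of the vertices -/
def han (v : ℕ) : ℕ :=
  if v ≤ n then MM n c else if v = 3 * n + 1 then MM n c else
    if (v - n - 1) % 2 = 0 then MM n c else c ((v - n - 1) / 2)

/-- the amount of time that may pass from the start of the job to the end -/
def dl (v : ℕ) : ℕ :=
  if v = n then 2 * (n + 1) * GG n c - n + 2 * MM n c + t else
  if v ≤ n then (2 * (n - v) + 3) * MM n c - 1 else
  if v = 3 * n + 1 then 2 * MM n c - 1 else
  if (v - n - 1) % 2 = 0 then (2 * ((v - n - 1) / 2) + 4) * MM n c - 1 else
  2 * (n + 1) * GG n c + ((v - n - 1) / 2 + 1) * ((v - n - 1) / 2 + 2) * GG n c +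
    (2 * ((v - n - 1) / 2) + 4) * MM n c + EE n t c

/-- release times -/
def rel (v : ℕ) : ℕ := KK n t c - dl n t c v

/-- the travel time of a tour -/
abbrev tr (v : ℕ) (σ : List ℕ) : ℕ := trav (fun v w => dd (pos n c v) (pos n c w)) 0 v σ

/-- what we know about a schedule -/
structure Good (π : List ℕ) : Prop where
  nd : π.Nodup
  mem : ∀ v, v ∈ π ↔ v < 3 * n + 2
  tot : tr n c 0 π + hsum (han n c) π ≤ KK n t c
  dead : ∀ v σ, v :: σ <:+ π → han n c v + tr n c v σ + hsum (han n c) σ ≤ dl n t c v

variable {n t c}

theorem pos_L {i : ℕ} (hi : i ≤ n) : pos n c (n - i) = n - i := by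
  unfold pos; rw [if_pos (by omega)]
theorem pos_B {i : ℕ} (hi : i < n) : pos n c (n + 1 + 2 * i) = (i + 1) * GG n c := by
  unfold pos
  rw [if_neg (by omega), if_neg (by omega)]
  have h1 : (n + 1 + 2 * i - n - 1) / 2 = i := by omega
  have h2 : (n + 1 + 2 * i - n - 1) % 2 = 0 := by omega
  rw [h1, h2]; simp
theorem pos_I {i : ℕ} (hi : i < n) : pos n c (n + 2 + 2 * i) = (i + 1) * GG n c + c i := by
  unfold pos
  rw [if_neg (by omega), if_neg (by omega)]
  have h1 : (n + 2 + 2 * i - n - 1) / 2 = i := by omega
  have h2 : (n + 2 + 2 * i - n - 1) % 2 = 1 := by omega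
  rw [h1, h2]; simp
theorem pos_D : pos n c (3 * n + 1) = (n + 1) * GG n c := by
  unfold pos
  rw [if_neg (by omega), if_pos rfl]
theorem pos_zero : pos n c 0 = 0 := by unfold pos; simp

theorem han_L {i : ℕ} (hi : i ≤ n) : han n c (n - i) = MM n c := by
  unfold han; rw [if_pos (by omega)]
theorem han_B {i : ℕ} (hi : i < n) : han n c (n + 1 + 2 * i) = MM n c := by
  unfold han
  rw [if_neg (by omega), if_neg (by omega), if_pos (by omega)]
theorem han_I {i : ℕ} (hi : i < n) : han n c (n + 2 + 2 * i) = c i := by
  unfold han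
  rw [if_neg (by omega), if_neg (by omega), if_neg (by omega)]
  have h1 : (n + 2 + 2 * i - n - 1) / 2 = i := by omega
  rw [h1]
theorem han_D : han n c (3 * n + 1) = MM n c := by
  unfold han
  rw [if_neg (by omega), if_pos rfl]

theorem dl_I {i : ℕ} (hi : i < n) : dl n t c (n + 2 + 2 * i) =
    2 * (n + 1) * GG n c + (i + 1) * (i + 2) * GG n c + (2 * i + 4) * MM n c + EE n t c := by
  unfold dl
  rw [if_neg (by omega), if_neg (by omega), if_neg (by omega), if_neg (by omega)]
  have h1 : (n + 2 + 2 * i - n - 1) / 2 = i := by omega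
  rw [h1]
theorem dl_C : dl n t c n = 2 * (n + 1) * GG n c - n + 2 * MM n c + t := by
  unfold dl; rw [if_pos rfl]
theorem dl_D : dl n t c (3 * n + 1) = 2 * MM n c - 1 := by
  unfold dl
  rw [if_neg (by omega), if_neg (by omega), if_pos rfl]
theorem dl_L {i : ℕ} (hi : i ≤ n) (hi0 : 0 < i) : dl n t c (n - i) = (2 * i + 3) * MM n c - 1 := by
  unfold dl
  rw [if_neg (by omega), if_pos (by omega)]
  have : n - (n - i) = i := by omega
  rw [this]
theorem dl_B {i : ℕ} (hi : i < n) : dl n t c (n + 1 + 2 * i) = (2 * i + 4) * MM n c - 1 := by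
  unfold dl
  rw [if_neg (by omega), if_neg (by omega), if_neg (by omega), if_pos (by omega)]
  have h1 : (n + 1 + 2 * i - n - 1) / 2 = i := by omega
  rw [h1]

/-- the jobs with the large handling times, in the order in which they have to be handled
(counted from the end) -/
def X (n m : ℕ) : ℕ := if m = 0 then 3 * n + 1 else if m % 2 = 1 then n - m / 2 else n + m - 1

theorem X_inj {m k : ℕ} (hm : m < 2 * n + 2) (hk : k < 2 * n + 2) (h : X n m = X n k) : m = k := by
  unfold X at h
  split_ifs at h <;> omega

theorem X_lt {m : ℕ} (hm : m < 2 * n + 2) : X n m < 3 * n + 2 := by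
  unfold X
  split_ifs <;> omega

theorem X_odd (i : ℕ) : X n (2 * i + 1) = n - i := by
  unfold X
  rw [if_neg (by omega), if_pos (by omega)]
  congr 1; omega

theorem X_even {i : ℕ} : X n (2 * i + 2) = n + 1 + 2 * i := by
  unfold X
  rw [if_neg (by omega), if_neg (by omega)]
  omega

theorem X_zero : X n 0 = 3 * n + 1 := by unfold X; simp

theorem X_cases {m : ℕ} (hm : m < 2 * n + 2) : m = 0 ∨ (∃ i ≤ n, m = 2 * i + 1) ∨
    ∃ i < n, m = 2 * i + 2 := by
  rcases Nat.eq_zero_or_pos m with h | h
  · exact Or.inl h
  · rcases Nat.even_or_odd' m with ⟨k, hk | hk⟩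
    · exact Or.inr (Or.inr ⟨k - 1, by omega, by omega⟩)
    · exact Or.inr (Or.inl ⟨k, by omega, hk⟩)

theorem han_X {m : ℕ} (hm : m < 2 * n + 2) : han n c (X n m) = MM n c := by
  rcases X_cases hm with rfl | ⟨i, hi, rfl⟩ | ⟨i, hi, rfl⟩
  · rw [X_zero]; exact han_D
  · rw [X_odd]; exact han_L hi
  · rw [X_even]; exact han_B hi

theorem GG_le : 3 * AA n c + 4 * ((n + 1) * (n + 1)) ≤ GG n c := le_rfl

theorem MM_eq : MM n c = (n * n + 3 * n + 2) * GG n c + (n + 2) * GG n c := by
  unfold MM; ring

theorem dl_X {m : ℕ} (hm : m < 2 * n + 2) (ht : t < AA n c) : dl n t c (X n m) <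
    (m + 2) * MM n c := by
  have hG := GG_le (n := n) (c := c)
  have hM0 : GG n c ≤ MM n c := by
    unfold MM
    exact Nat.le_mul_of_pos_left _ (by positivity)
  have hM : 0 < MM n c := by omega
  rcases X_cases hm with rfl | ⟨i, hi, rfl⟩ | ⟨i, hi, rfl⟩
  · rw [X_zero, dl_D]; omega
  · rw [X_odd]
    rcases Nat.eq_zero_or_pos i with rfl | hi0
    · rw [Nat.sub_zero, dl_C]
      have h1 : MM n c = 2 * (n + 1) * GG n c + (n * n + 2 * n + 1) * GG n c + GG n c := by
        unfold MM; ring
      have h2 : (2 * 0 + 1 + 2) * MM n c = 2 * MM n c + MM n c := by ring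
      rw [h2]
      have h3 : 0 ≤ (n * n + 2 * n + 1) * GG n c := Nat.zero_le _
      omega
    · rw [dl_L hi hi0]
      have h2 : (2 * i + 1 + 2) * MM n c = (2 * i + 3) * MM n c := by ring
      rw [h2]
      have h3 : 0 < (2 * i + 3) * MM n c := by positivity
      omega
  · rw [X_even, dl_B hi]
    have h2 : (2 * i + 2 + 2) * MM n c = (2 * i + 4) * MM n c := by ring
    rw [h2]
    have h3 : 0 < (2 * i + 4) * MM n c := by positivity
    omega

section fwd
variable {π : List ℕ}

theorem Good.at' (g : Good n t c π) {v : ℕ} (hv : v ∈ π) :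
    han n c v + tr n c v (aft v π) + hsum (han n c) (aft v π) ≤ dl n t c v := by
  obtain ⟨α, hα⟩ := aft_split hv
  exact g.dead v _ ⟨α, hα.symm⟩

/-- the large jobs are handled in the right order -/
theorem Good.order (g : Good n t c π) (ht : t < AA n c) : ∀ m < 2 * n + 2, ∀ j < m,
    X n j ∈ aft (X n m) π := by
  intro m
  induction m using Nat.strong_induction_on with
  | _ m ih =>
    intro hm j hj
    have hXm : X n m ∈ π := (g.mem _).2 (X_lt hm)
    have hXj : X n j ∈ π := (g.mem _).2 (X_lt (by omega))
    rcases aft_total hXm hXj (fun h => by have := X_inj hm (by omega) h; omega) with h | h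
    · exact h
    · exfalso
      have h1 := g.at' hXj
      have h2 := dl_X (m := j) (t := t) (c := c) (n := n) (by omega) ht
      rw [han_X (by omega)] at h1
      have h3 : (j + 1) * MM n c ≤ hsum (han n c) (aft (X n j) π) := by
        have h4 := hsum_ge (han n c) (aft_nodup (v := X n j) g.nd)
          (S := insert (X n m) ((Finset.range j).image (X n))) ?_
        · rw [Finset.sum_insert, Finset.sum_image, han_X hm] at h4
          · have h5 : ∑ x ∈ Finset.range j, han n c (X n x) = j * MM n c := by
              rw [Finset.sum_congr rfl (fun x hx => han_X (by rw [Finset.mem_range] at hx; omega))]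
              simp
            rw [h5] at h4
            linarith
          · intro x hx y hy hxy
            simp only [Finset.coe_range, Set.mem_Iio] at hx hy
            exact X_inj (by omega) (by omega) hxy
          · simp only [Finset.mem_image, Finset.mem_range, not_exists, not_and]
            intro x hx hxm
            have := X_inj (by omega) hm hxm
            omega
        · intro x hx
          rw [Finset.mem_insert, Finset.mem_image] at hx
          rcases hx with rfl | ⟨y, hy, rfl⟩
          · exact h
          · rw [Finset.mem_range] at hy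
            exact ih j hj (by omega) y hy
      have h6 : (j + 2) * MM n c = (j + 1) * MM n c + MM n c := by ring
      omega

theorem Good.LL (g : Good n t c π) (ht : t < AA n c) {i j : ℕ} (hij : j < i) (hi : i ≤ n) :
    n - j ∈ aft (n - i) π := by
  have := g.order ht (2 * i + 1) (by omega) (2 * j + 1) (by omega)
  rwa [X_odd, X_odd] at this

theorem Good.LB (g : Good n t c π) (ht : t < AA n c) {i j : ℕ} (hij : j < i) (hi : i ≤ n) :
    n + 1 + 2 * j ∈ aft (n - i) π := by
  have := g.order ht (2 * i + 1) (by omega) (2 * j + 2) (by omega)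
  rwa [X_odd, X_even] at this

theorem Good.BL (g : Good n t c π) (ht : t < AA n c) {i j : ℕ} (hij : j ≤ i) (hi : i < n) :
    n - j ∈ aft (n + 1 + 2 * i) π := by
  have := g.order ht (2 * i + 2) (by omega) (2 * j + 1) (by omega)
  rwa [X_odd, X_even] at this

theorem Good.LD (g : Good n t c π) (ht : t < AA n c) {i : ℕ} (hi : i ≤ n) :
    3 * n + 1 ∈ aft (n - i) π := by
  have := g.order ht (2 * i + 1) (by omega) 0 (by omega)
  rwa [X_odd, X_zero] at this

/-- the basic lower bound for the travel time -/
theorem Good.lower (g : Good n t c π) (ht : t < AA n c) (m : ℕ → ℕ) : ∀ i ≤ n,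
    (∀ j < i, m j ∈ aft (n - (j + 1)) π ∧ n - j ∈ aft (m j) π) →
    ∑ j ∈ Finset.range i, 2 * pos n c (m j) + 2 * (n + 1) * GG n c + i * i ≤
      tr n c (n - i) (aft (n - i) π) + 2 * n * i + n := by
  intro i
  induction i with
  | zero =>
    intro _ _
    obtain ⟨β, hβ⟩ := aft_aft g.nd (g.LD ht (i := 0) (by omega))
    rw [hβ]
    have h1 := trav_append_ge (fun v w => dd (pos n c v) (pos n c w)) 0
      (fun x y z => dd_tri _ _ _) (n - 0) (3 * n + 1) (aft (3 * n + 1) π) β
    have h2 := trav_ge (fun v w => dd (pos n c v) (pos n c w)) 0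
      (fun x y z => dd_tri _ _ _) (3 * n + 1) (aft (3 * n + 1) π)
    simp only [pos_D, pos_L (Nat.zero_le n), pos_zero] at h1 h2
    have hG := GG_le (n := n) (c := c)
    have h3 : n ≤ (n + 1) * GG n c := by nlinarith
    have h4 : 2 * (n + 1) * GG n c = (n + 1) * GG n c + (n + 1) * GG n c := by ring
    unfold dd at h1 h2
    simp only [Finset.range_zero, Finset.sum_empty]
    unfold tr dd
    omega
  | succ i ih =>
    intro hi hm
    have h0 := ih (by omega) (fun j hj => hm j (by omega))
    obtain ⟨h1, h2⟩ := hm i (by omega)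
    obtain ⟨β, hβ⟩ := aft_aft g.nd h1
    obtain ⟨γ, hγ⟩ := aft_aft g.nd h2
    have h3 := trav_append_ge (fun v w => dd (pos n c v) (pos n c w)) 0
      (fun x y z => dd_tri _ _ _) (n - (i + 1)) (m i) (aft (m i) π) β
    have h4 := trav_append_ge (fun v w => dd (pos n c v) (pos n c w)) 0
      (fun x y z => dd_tri _ _ _) (m i) (n - i) (aft (n - i) π) γ
    rw [← hβ] at h3
    rw [← hγ] at h4
    simp only [pos_L (show i ≤ n by omega), pos_L hi] at h3 h4
    rw [Finset.sum_range_succ]
    unfold tr at h0 ⊢
    unfold dd at h0 h3 h4 ⊢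
    have h5 : (i + 1) * (i + 1) = i * i + 2 * i + 1 := by ring
    have h6 : 2 * n * (i + 1) = 2 * n * i + 2 * n := by ring
    rw [h5, h6]
    omega

theorem sumB : ∀ i ≤ n, ∑ j ∈ Finset.range i, 2 * pos n c (n + 1 + 2 * j) = i * (i + 1) * GG n c := by
  intro i
  induction i with
  | zero => intro _; simp
  | succ i ih =>
    intro hi
    rw [Finset.sum_range_succ, ih (by omega), pos_B (by omega)]
    ring

theorem sum_han : ∑ v ∈ Finset.range (3 * n + 2), han n c v = (2 * n + 2) * MM n c + AA n c := by
  have h1 : 3 * n + 2 = (n + 1) + (2 * n + 1) := by ring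
  rw [h1, Finset.sum_range_add, Finset.sum_range_succ _ (2 * n)]
  have h2 : ∑ x ∈ Finset.range (n + 1), han n c x = (n + 1) * MM n c := by
    have h : ∀ x ∈ Finset.range (n + 1), han n c x = MM n c := by
      intro x hx
      rw [Finset.mem_range] at hx
      unfold han
      rw [if_pos (by omega)]
    rw [Finset.sum_congr rfl h]
    simp
  have h3 : ∀ k ≤ n, ∑ x ∈ Finset.range (2 * k), han n c (n + 1 + x) =
      k * MM n c + ∑ i ∈ Finset.range k, c i := by
    intro k
    induction k with
    | zero => intro _; simp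
    | succ k ih =>
      intro hk
      have e : 2 * (k + 1) = 2 * k + 1 + 1 := by ring
      rw [e, Finset.sum_range_succ, Finset.sum_range_succ, ih (by omega), han_B (by omega),
        Finset.sum_range_succ]
      have h4 : n + 1 + (2 * k + 1) = n + 2 + 2 * k := by ring
      rw [h4, han_I (by omega)]
      ring
  have h4 : n + 1 + 2 * n = 3 * n + 1 := by ring
  rw [h2, h3 n le_rfl, h4, han_D]
  unfold AA
  ring

theorem Good.hsum_tot (g : Good n t c π) : (2 * n + 2) * MM n c + AA n c ≤ hsum (han n c) π := by
  rw [← sum_han]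
  exact hsum_ge _ g.nd (fun x hx => (g.mem x).2 (by rwa [Finset.mem_range] at hx))

theorem Good.tot' (g : Good n t c π) :
    tr n c (n - n) (aft (n - n) π) + (2 * n + 2) * MM n c + AA n c ≤ KK n t c := by
  have h1 := g.hsum_tot
  have h2 := g.tot
  rw [Nat.sub_self]
  obtain ⟨α, hα⟩ := aft_split ((g.mem 0).2 (by omega))
  have h3 := trav_append_ge (fun v w => dd (pos n c v) (pos n c w)) 0
      (fun x y z => dd_tri _ _ _) 0 0 (aft 0 π) α
  rw [← hα] at h3
  unfold tr at h2 ⊢
  omega

theorem KK_eq : KK n t c + (n + n * n) = 2 * (n + 1) * GG n c + n * (n + 1) * GG n c +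
    (2 * n + 2) * MM n c + EE n t c := by
  have hG := GG_le (n := n) (c := c)
  have h1 : n + n * n ≤ 2 * (n + 1) * GG n c := by nlinarith
  unfold KK
  omega

theorem EE_le : EE n t c ≤ 3 * AA n c := by unfold EE; omega

theorem le_AA {i : ℕ} (hi : i < n) : c i ≤ AA n c :=
  Finset.single_le_sum (f := c) (fun _ _ => Nat.zero_le _) (Finset.mem_range.2 hi)

/-- an item cannot be handled too early -/
theorem Good.item_after (g : Good n t c π) (ht : t < AA n c) {i : ℕ} (hi : i < n) :
    n + 2 + 2 * i ∈ aft (n - (i + 1)) π := by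
  have hI : n + 2 + 2 * i ∈ π := (g.mem _).2 (by omega)
  have hL : n - (i + 1) ∈ π := (g.mem _).2 (by omega)
  rcases aft_total hL hI (by omega) with h | h
  · exact h
  exfalso
  have h1 := g.at' hI
  rw [han_I hi, dl_I hi] at h1
  obtain ⟨β, hβ⟩ := aft_aft g.nd h
  have h2 := trav_append_ge (fun v w => dd (pos n c v) (pos n c w)) 0
      (fun x y z => dd_tri _ _ _) (n + 2 + 2 * i) (n - (i + 1)) (aft (n - (i + 1)) π) β
  rw [← hβ] at h2
  simp only [pos_L (show i + 1 ≤ n by omega), pos_I hi] at h2
  have h3 := g.lower ht (fun j => n + 1 + 2 * j) (i + 1) (by omega) (fun j hj =>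
    ⟨g.LB ht (by omega) (by omega), g.BL ht le_rfl (by omega)⟩)
  rw [sumB _ (by omega)] at h3
  have h4 : (2 * i + 4) * MM n c ≤ hsum (han n c) (aft (n + 2 + 2 * i) π) := by
    have h5 := hsum_ge (han n c) (aft_nodup (v := n + 2 + 2 * i) g.nd)
      (S := (Finset.range (2 * i + 4)).image (X n)) ?_
    · rw [Finset.sum_image, Finset.sum_congr rfl (fun x hx => han_X (by
        rw [Finset.mem_range] at hx; omega))] at h5
      · simpa using h5
      · intro x hx y hy hxy
        simp only [Finset.coe_range, Set.mem_Iio] at hx hy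
        exact X_inj (by omega) (by omega) hxy
    · intro x hx
      rw [Finset.mem_image] at hx
      obtain ⟨y, hy, rfl⟩ := hx
      rw [Finset.mem_range] at hy
      have e : X n (2 * (i + 1) + 1) = n - (i + 1) := X_odd _
      by_cases hy3 : y = 2 * (i + 1) + 1
      · rw [hy3, e]; exact h
      · have := g.order ht (2 * (i + 1) + 1) (by omega) y (by omega)
        rw [e] at this
        exact aft_trans g.nd h this
  unfold tr at h1 h3
  unfold dd at h1 h2 h3
  have hG := GG_le (n := n) (c := c)
  have hE := EE_le (n := n) (c := c) (t := t)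
  have h6 : (i + 1) * GG n c = i * GG n c + GG n c := by ring
  have h7 : 0 ≤ i * GG n c := Nat.zero_le _
  have h8 : 2 * n * (i + 1) + 2 * n < 4 * ((n + 1) * (n + 1)) := by nlinarith
  have h9 : (i + 1) * (i + 1 + 1) * GG n c = (i + 1) * (i + 2) * GG n c := by ring
  rw [h9] at h3
  have h10 : 0 ≤ (i + 1) * (i + 1) := Nat.zero_le _
  omega

/-- an item which is handled before the last left job is handled in its phase -/
theorem Good.item_before (g : Good n t c π) (ht : t < AA n c) {i : ℕ} (hi : i < n)
    (h0 : n ∈ aft (n + 2 + 2 * i) π) : n - i ∈ aft (n + 2 + 2 * i) π := by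
  by_contra hcon
  classical
  have hex : ∃ k, ¬ (n - k ∈ aft (n + 2 + 2 * i) π) := ⟨i, hcon⟩
  obtain ⟨j, hj1, hj2, hji⟩ : ∃ j, n - j ∈ aft (n + 2 + 2 * i) π ∧
      ¬ (n - (j + 1) ∈ aft (n + 2 + 2 * i) π) ∧ j < i := by
    have h1 := Nat.find_spec hex
    have h2 : Nat.find hex ≤ i := Nat.find_min' hex hcon
    have h3 : Nat.find hex ≠ 0 := by
      intro h
      rw [h, Nat.sub_zero] at h1
      exact h1 h0
    refine ⟨Nat.find hex - 1, ?_, ?_, by omega⟩
    · have := Nat.find_min hex (m := Nat.find hex - 1) (by omega)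
      simpa using this
    · have e : Nat.find hex - 1 + 1 = Nat.find hex := by omega
      rw [e]; exact h1
  have hI : n + 2 + 2 * i ∈ π := (g.mem _).2 (by omega)
  have hL : n - (j + 1) ∈ π := (g.mem _).2 (by omega)
  have h1 : n + 2 + 2 * i ∈ aft (n - (j + 1)) π :=
    (aft_total hL hI (by omega)).resolve_right hj2
  have h2 := g.lower ht (Function.update (fun j => n + 1 + 2 * j) j (n + 2 + 2 * i)) n le_rfl ?_
  · have h3 : ∑ k ∈ Finset.range n, 2 * pos n c
        (Function.update (fun j => n + 1 + 2 * j) j (n + 2 + 2 * i) k) +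
        2 * pos n c (n + 1 + 2 * j) = n * (n + 1) * GG n c + 2 * pos n c (n + 2 + 2 * i) := by
      rw [← sumB n le_rfl, ← Finset.add_sum_erase _ _ (Finset.mem_range.2 (show j < n by omega)),
        ← Finset.add_sum_erase (Finset.range n) (fun j => 2 * pos n c (n + 1 + 2 * j))
          (Finset.mem_range.2 (show j < n by omega))]
      rw [Function.update_self]
      rw [Finset.sum_congr rfl (g := fun k => 2 * pos n c (n + 1 + 2 * k)) (fun k hk => by
        rw [Function.update_of_ne (Finset.ne_of_mem_erase hk)])]
      ring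
    have h4 := g.tot'
    rw [pos_I hi, pos_B (by omega)] at h3
    have h5 : (j + 1) * GG n c + GG n c ≤ (i + 1) * GG n c := by
      calc (j + 1) * GG n c + GG n c = (j + 1 + 1) * GG n c := by ring
        _ ≤ (i + 1) * GG n c := Nat.mul_le_mul_right _ (by omega)
    have hG := GG_le (n := n) (c := c)
    have hE := EE_le (n := n) (c := c) (t := t)
    have hK := KK_eq (n := n) (c := c) (t := t)
    have h6 : 2 * n * n = 2 * (n * n) := by ring
    rw [h6] at h2
    omega
  · intro k hk
    by_cases hkj : k = j
    · subst hkj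
      rw [Function.update_self]
      exact ⟨h1, hj1⟩
    · rw [Function.update_of_ne hkj]
      exact ⟨g.LB ht (by omega) (by omega), g.BL ht le_rfl (by omega)⟩

/-- A schedule gives a set of items with the right sum. -/
theorem Good.subset (g : Good n t c π) (ht : t < AA n c) :
    ∃ S : Finset ℕ, S ⊆ Finset.range n ∧ ∑ i ∈ S, c i = t := by
  classical
  obtain ⟨P, hP⟩ : ∃ P : ℕ → Prop, ∀ i, P i ↔ n ∈ aft (n + 2 + 2 * i) π :=
    ⟨_, fun _ => Iff.rfl⟩
  have h1 := g.lower ht (fun j => if P j then n + 2 + 2 * j else n + 1 + 2 * j) n le_rfl ?_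
  · have h2 : ∑ j ∈ Finset.range n, 2 * pos n c (if P j then n + 2 + 2 * j else n + 1 + 2 * j) =
        n * (n + 1) * GG n c + 2 * ∑ j ∈ (Finset.range n).filter P, c j := by
      rw [← sumB n le_rfl, Finset.mul_sum, Finset.sum_filter, ← Finset.sum_add_distrib]
      refine Finset.sum_congr rfl fun j hj => ?_
      rw [Finset.mem_range] at hj
      split_ifs with h
      · rw [pos_I hj, pos_B hj]; ring
      · simp
    have h3 := g.tot'
    have hK := KK_eq (n := n) (c := c) (t := t)
    have h6 : 2 * n * n = 2 * (n * n) := by ring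
    rw [h6] at h1
    -- the last left job
    have h4 := g.at' ((g.mem n).2 (by omega))
    have h5 := g.lower ht (fun j => n) 0 (by omega) (fun j hj => absurd hj (by omega))
    simp only [Finset.range_zero, Finset.sum_empty, Nat.sub_zero, mul_zero] at h5
    have h7 : MM n c + ∑ j ∈ (Finset.range n).filter (fun j => ¬ P j), c j ≤
        hsum (han n c) (aft n π) := by
      have h8 := hsum_ge (han n c) (aft_nodup (v := n) g.nd)
        (S := insert (3 * n + 1) (((Finset.range n).filter (fun j => ¬ P j)).image
          (fun j => n + 2 + 2 * j))) ?_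
      · rw [Finset.sum_insert, Finset.sum_image, han_D] at h8
        · rw [Finset.sum_congr rfl (fun x hx => han_I (by
            rw [Finset.mem_filter, Finset.mem_range] at hx; exact hx.1))] at h8
          exact h8
        · intro x _ y _ hxy
          have hxy' : n + 2 + 2 * x = n + 2 + 2 * y := hxy
          omega
        · simp only [Finset.mem_image, Finset.mem_filter, Finset.mem_range, not_exists, not_and]
          intro x _ h
          omega
      · intro x hx
        rw [Finset.mem_insert, Finset.mem_image] at hx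
        rcases hx with rfl | ⟨y, hy, rfl⟩
        · have := g.LD ht (i := 0) (by omega)
          rwa [Nat.sub_zero] at this
        · rw [Finset.mem_filter, Finset.mem_range] at hy
          exact (aft_total ((g.mem _).2 (by omega)) ((g.mem _).2 (by omega)) (by omega)).resolve_right
            (fun h => hy.2 ((hP y).2 h))
    rw [dl_C] at h4
    have h9 : han n c n = MM n c := by
      have := han_L (n := n) (c := c) (i := 0) (by omega)
      rwa [Nat.sub_zero] at this
    have h10 : ∑ j ∈ (Finset.range n).filter P, c j +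
        ∑ j ∈ (Finset.range n).filter (fun j => ¬ P j), c j = ∑ j ∈ Finset.range n, c j := by
      rw [Finset.sum_filter_add_sum_filter_not]
    have hG := GG_le (n := n) (c := c)
    have h11 : n ≤ 2 * (n + 1) * GG n c := by nlinarith
    refine ⟨(Finset.range n).filter (fun j => ¬ P j), Finset.filter_subset _ _, ?_⟩
    rw [h2] at h1
    unfold EE at hK
    unfold AA at *
    omega
  · intro j hj
    split_ifs with h
    · exact ⟨g.item_after ht hj, g.item_before ht hj ((hP j).1 h)⟩
    · exact ⟨g.LB ht (by omega) (by omega), g.BL ht le_rfl (by omega)⟩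

end fwd

section bwd

/-- the items which are handled at the end -/
def lates (n : ℕ) (F : ℕ → Bool) : ℕ → List ℕ
  | 0 => []
  | i + 1 => if F i = true then (n + 2 + 2 * i) :: lates n F i else lates n F i

/-- the schedule after a left job -/
def bod (n : ℕ) (F : ℕ → Bool) : ℕ → List ℕ
  | 0 => (3 * n + 1) :: lates n F n
  | i + 1 => (n + 1 + 2 * i) :: (if F i = true then (n - i) :: bod n F i else
      (n + 2 + 2 * i) :: (n - i) :: bod n F i)

/-- the sum of the late items -/
def lateS (c : ℕ → ℕ) (F : ℕ → Bool) (i : ℕ) : ℕ :=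
  ∑ j ∈ Finset.range i, if F j = true then c j else 0

/-- the sum of the early items -/
def earlyS (c : ℕ → ℕ) (F : ℕ → Bool) (i : ℕ) : ℕ :=
  ∑ j ∈ Finset.range i, if F j = true then 0 else c j

theorem lateS_add_earlyS (F : ℕ → Bool) (i : ℕ) : lateS c F i + earlyS c F i = AA i c := by
  unfold lateS earlyS AA
  rw [← Finset.sum_add_distrib]
  refine Finset.sum_congr rfl fun j _ => ?_
  split_ifs <;> simp

variable {F : ℕ → Bool}

theorem mem_lates {i v : ℕ} : v ∈ lates n F i ↔ ∃ j < i, F j = true ∧ v = n + 2 + 2 * j := by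
  induction i with
  | zero => simp [lates]
  | succ i ih =>
    simp only [lates]
    split_ifs with h
    · rw [List.mem_cons, ih]
      constructor
      · rintro (rfl | ⟨j, hj, hF, rfl⟩)
        · exact ⟨i, by omega, h, rfl⟩
        · exact ⟨j, by omega, hF, rfl⟩
      · rintro ⟨j, hj, hF, rfl⟩
        rcases Nat.lt_succ_iff_lt_or_eq.1 hj with h1 | rfl
        · exact Or.inr ⟨j, h1, hF, rfl⟩
        · exact Or.inl rfl
    · rw [ih]
      constructor
      · rintro ⟨j, hj, hF, rfl⟩
        exact ⟨j, by omega, hF, rfl⟩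
      · rintro ⟨j, hj, hF, rfl⟩
        rcases Nat.lt_succ_iff_lt_or_eq.1 hj with h1 | rfl
        · exact ⟨j, h1, hF, rfl⟩
        · exact absurd hF h

theorem lates_nodup (i : ℕ) : (lates n F i).Nodup := by
  induction i with
  | zero => simp [lates]
  | succ i ih =>
    simp only [lates]
    split_ifs with h
    · rw [List.nodup_cons, mem_lates]
      refine ⟨?_, ih⟩
      rintro ⟨j, hj, _, h1⟩
      omega
    · exact ih

theorem mem_bod {i v : ℕ} : v ∈ bod n F i ↔ v = 3 * n + 1 ∨
    (∃ j < n, F j = true ∧ v = n + 2 + 2 * j) ∨ (∃ j < i, v = n + 1 + 2 * j) ∨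
    (∃ j < i, v = n - j) ∨ ∃ j < i, F j = false ∧ v = n + 2 + 2 * j := by
  induction i with
  | zero => simp [bod, mem_lates]
  | succ i ih =>
    have h1 : ∀ P : ℕ → Prop, (∃ j < i + 1, P j) ↔ P i ∨ ∃ j < i, P j := by
      intro P
      constructor
      · rintro ⟨j, hj, hP⟩
        rcases Nat.lt_succ_iff_lt_or_eq.1 hj with h | rfl
        · exact Or.inr ⟨j, h, hP⟩
        · exact Or.inl hP
      · rintro (h | ⟨j, hj, hP⟩)
        · exact ⟨i, by omega, h⟩
        · exact ⟨j, by omega, hP⟩
    rw [h1, h1, h1]
    generalize hA : (v = 3 * n + 1) = A at ih ⊢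
    generalize hB : (∃ j < n, F j = true ∧ v = n + 2 + 2 * j) = B at ih ⊢
    generalize hC : (∃ j < i, v = n + 1 + 2 * j) = C at ih ⊢
    generalize hD : (∃ j < i, v = n - j) = D at ih ⊢
    generalize hE : (∃ j < i, F j = false ∧ v = n + 2 + 2 * j) = E at ih ⊢
    generalize hG : (v = n + 1 + 2 * i) = G
    generalize hH : (v = n - i) = H
    simp only [bod, List.mem_cons]
    by_cases h : F i = true
    · rw [if_pos h]
      simp only [List.mem_cons, ih, h, hG, hH]
      constructor
      · rintro (h | h | h | h | h | h | h)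
        · exact Or.inr (Or.inr (Or.inl (Or.inl h)))
        · exact Or.inr (Or.inr (Or.inr (Or.inl (Or.inl h))))
        · exact Or.inl h
        · exact Or.inr (Or.inl h)
        · exact Or.inr (Or.inr (Or.inl (Or.inr h)))
        · exact Or.inr (Or.inr (Or.inr (Or.inl (Or.inr h))))
        · exact Or.inr (Or.inr (Or.inr (Or.inr (Or.inr h))))
      · rintro (h | h | (h | h) | (h | h) | (h | h))
        · exact Or.inr (Or.inr (Or.inl h))
        · exact Or.inr (Or.inr (Or.inr (Or.inl h)))
        · exact Or.inl h
        · exact Or.inr (Or.inr (Or.inr (Or.inr (Or.inl h))))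
        · exact Or.inr (Or.inl h)
        · exact Or.inr (Or.inr (Or.inr (Or.inr (Or.inr (Or.inl h)))))
        · exact absurd h.1 (by simp)
        · exact Or.inr (Or.inr (Or.inr (Or.inr (Or.inr (Or.inr h)))))
    · have h' : F i = false := by simpa using h
      rw [if_neg h]
      simp only [List.mem_cons, ih, h', hG, hH, true_and]
      constructor
      · rintro (h | h | h | h | h | h | h | h)
        · exact Or.inr (Or.inr (Or.inl (Or.inl h)))
        · exact Or.inr (Or.inr (Or.inr (Or.inr (Or.inl h))))
        · exact Or.inr (Or.inr (Or.inr (Or.inl (Or.inl h))))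
        · exact Or.inl h
        · exact Or.inr (Or.inl h)
        · exact Or.inr (Or.inr (Or.inl (Or.inr h)))
        · exact Or.inr (Or.inr (Or.inr (Or.inl (Or.inr h))))
        · exact Or.inr (Or.inr (Or.inr (Or.inr (Or.inr h))))
      · rintro (h | h | (h | h) | (h | h) | (h | h))
        · exact Or.inr (Or.inr (Or.inr (Or.inl h)))
        · exact Or.inr (Or.inr (Or.inr (Or.inr (Or.inl h))))
        · exact Or.inl h
        · exact Or.inr (Or.inr (Or.inr (Or.inr (Or.inr (Or.inl h)))))
        · exact Or.inr (Or.inr (Or.inl h))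
        · exact Or.inr (Or.inr (Or.inr (Or.inr (Or.inr (Or.inr (Or.inl h))))))
        · exact Or.inr (Or.inl h)
        · exact Or.inr (Or.inr (Or.inr (Or.inr (Or.inr (Or.inr (Or.inr h))))))

theorem bod_nodup {i : ℕ} (hi : i ≤ n) : (bod n F i).Nodup := by
  induction i with
  | zero =>
    simp only [bod]
    rw [List.nodup_cons, mem_lates]
    refine ⟨?_, lates_nodup _⟩
    rintro ⟨j, hj, _, h1⟩
    omega
  | succ i ih =>
    have h0 := ih (by omega)
    have h1 : n - i ∉ bod n F i := by
      rw [mem_bod]
      rintro (h | ⟨j, hj, _, h⟩ | ⟨j, hj, h⟩ | ⟨j, hj, h⟩ | ⟨j, hj, _, h⟩) <;> omega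
    have h2 : n + 1 + 2 * i ∉ bod n F i := by
      rw [mem_bod]
      rintro (h | ⟨j, hj, _, h⟩ | ⟨j, hj, h⟩ | ⟨j, hj, h⟩ | ⟨j, hj, _, h⟩) <;> omega
    simp only [bod]
    split_ifs with h
    · rw [List.nodup_cons, List.mem_cons, List.nodup_cons]
      exact ⟨fun h3 => h3.elim (fun h4 => by omega) h2, h1, h0⟩
    · have h3 : n + 2 + 2 * i ∉ bod n F i := by
        rw [mem_bod]
        rintro (h4 | ⟨j, hj, h5, h4⟩ | ⟨j, hj, h4⟩ | ⟨j, hj, h4⟩ | ⟨j, hj, _, h4⟩)
        · omega
        · have : j = i := by omega
          subst this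
          exact h h5
        · omega
        · omega
        · omega
      rw [List.nodup_cons, List.mem_cons, List.mem_cons, List.nodup_cons, List.mem_cons,
        List.nodup_cons]
      refine ⟨?_, ?_, h1, h0⟩
      · rintro (h4 | h4 | h4)
        · omega
        · omega
        · exact h2 h4
      · rintro (h4 | h4)
        · omega
        · exact h3 h4

theorem hsum_lates {i : ℕ} (hi : i ≤ n) : hsum (han n c) (lates n F i) = lateS c F i := by
  induction i with
  | zero => simp [lates, lateS]
  | succ i ih =>
    unfold lateS at ih ⊢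
    rw [Finset.sum_range_succ]
    simp only [lates]
    split_ifs with h
    · rw [hsum_cons, ih (by omega), han_I (by omega)]
      ring
    · rw [ih (by omega)]
      ring

theorem tr_lates {i : ℕ} (hi : i ≤ n) : ∀ v, (∀ j < i, (j + 1) * GG n c + c j ≤ pos n c v) →
    tr n c v (lates n F i) = pos n c v := by
  induction i with
  | zero =>
    intro v _
    simp only [lates, tr, trav, pos_zero]
    unfold dd; omega
  | succ i ih =>
    intro v hv
    simp only [lates]
    split_ifs with h
    · have h1 := ih (by omega) (n + 2 + 2 * i) ?_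
      · have h2 := hv i (by omega)
        unfold tr at h1 ⊢
        simp only [trav]
        rw [h1, pos_I (by omega)]
        unfold dd; omega
      · intro j hj
        rw [pos_I (by omega)]
        have h2 : (j + 1) * GG n c + GG n c ≤ (i + 1) * GG n c := by
          calc (j + 1) * GG n c + GG n c = (j + 1 + 1) * GG n c := by ring
            _ ≤ (i + 1) * GG n c := Nat.mul_le_mul_right _ (by omega)
        have h3 := le_AA (c := c) (show j < n by omega)
        have hG := GG_le (n := n) (c := c)
        omega
    · exact ih (by omega) v (fun j hj => hv j (by omega))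

theorem suffix_lates {i v : ℕ} {σ : List ℕ} (h : v :: σ <:+ lates n F i) :
    ∃ j < i, v = n + 2 + 2 * j ∧ σ = lates n F j := by
  induction i with
  | zero => simp [lates] at h
  | succ i ih =>
    simp only [lates] at h
    split_ifs at h with h1
    · rw [List.suffix_cons_iff] at h
      rcases h with h | h
      · rw [List.cons.injEq] at h
        exact ⟨i, by omega, h.1, h.2⟩
      · obtain ⟨j, hj, h2⟩ := ih h
        exact ⟨j, by omega, h2⟩
    · obtain ⟨j, hj, h2⟩ := ih h
      exact ⟨j, by omega, h2⟩

theorem hsum_bod {i : ℕ} (hi : i ≤ n) : hsum (han n c) (bod n F i) =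
    (2 * i + 1) * MM n c + earlyS c F i + lateS c F n := by
  induction i with
  | zero =>
    simp only [bod, hsum_cons, han_D, hsum_lates le_rfl]
    unfold earlyS
    simp
  | succ i ih =>
    unfold earlyS at ih ⊢
    rw [Finset.sum_range_succ]
    simp only [bod]
    split_ifs with h
    · rw [hsum_cons, hsum_cons, ih (by omega), han_B (by omega), han_L (by omega)]
      ring
    · rw [hsum_cons, hsum_cons, hsum_cons, ih (by omega), han_B (by omega), han_L (by omega),
        han_I (by omega)]
      ring

theorem tr_D_lates : tr n c (3 * n + 1) (lates n F n) = (n + 1) * GG n c := by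
  rw [tr_lates le_rfl, pos_D]
  intro j hj
  rw [pos_D]
  have h2 : (j + 1) * GG n c + GG n c ≤ (n + 1) * GG n c := by
    calc (j + 1) * GG n c + GG n c = (j + 1 + 1) * GG n c := by ring
      _ ≤ (n + 1) * GG n c := Nat.mul_le_mul_right _ (by omega)
  have h3 := le_AA (c := c) hj
  have hG := GG_le (n := n) (c := c)
  omega

theorem n_le_G (i : ℕ) : n ≤ (i + 1) * GG n c := by
  have hG := GG_le (n := n) (c := c)
  have : n ≤ GG n c := by nlinarith
  calc n ≤ GG n c := this
    _ ≤ (i + 1) * GG n c := Nat.le_mul_of_pos_left _ (by omega)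

theorem tr_bod {i : ℕ} (hi : i ≤ n) : tr n c (n - i) (bod n F i) + 2 * n * i + n =
    i * (i + 1) * GG n c + 2 * earlyS c F i + 2 * (n + 1) * GG n c + i * i := by
  induction i with
  | zero =>
    have h1 := tr_D_lates (n := n) (c := c) (F := F)
    have h2 := n_le_G (n := n) (c := c) n
    simp only [bod]
    unfold tr at h1 ⊢
    unfold earlyS
    simp only [trav, h1, pos_D, pos_L (Nat.zero_le n)]
    have h4 : 2 * (n + 1) * GG n c = (n + 1) * GG n c + (n + 1) * GG n c := by ring
    simp only [Finset.range_zero, Finset.sum_empty]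
    unfold dd
    omega
  | succ i ih =>
    have h1 := ih (by omega)
    have h2 := n_le_G (n := n) (c := c) i
    have h3 : earlyS c F (i + 1) = earlyS c F i + if F i = true then 0 else c i := by
      unfold earlyS
      rw [Finset.sum_range_succ]
    have h5 : (i + 1) * (i + 1) = i * i + 2 * i + 1 := by ring
    have h6 : 2 * n * (i + 1) = 2 * n * i + 2 * n := by ring
    have h7 : (i + 1) * (i + 1 + 1) * GG n c = i * (i + 1) * GG n c + (i + 1) * GG n c +
      (i + 1) * GG n c := by ring
    rw [h3, h5, h6, h7]
    simp only [bod]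
    unfold tr at h1 ⊢
    split_ifs with h
    · simp only [trav, pos_L (show i ≤ n by omega), pos_L hi, pos_B (show i < n by omega)]
      unfold dd at h1 ⊢
      omega
    · simp only [trav, pos_L (show i ≤ n by omega), pos_L hi, pos_B (show i < n by omega),
        pos_I (show i < n by omega)]
      unfold dd at h1 ⊢
      omega

theorem earlyS_mono {i j : ℕ} (h : i ≤ j) : earlyS c F i ≤ earlyS c F j :=
  Finset.sum_le_sum_of_subset (fun x hx => by
    rw [Finset.mem_range] at hx ⊢; omega)

theorem lateS_mono {i j : ℕ} (h : i ≤ j) : lateS c F i ≤ lateS c F j :=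
  Finset.sum_le_sum_of_subset (fun x hx => by
    rw [Finset.mem_range] at hx ⊢; omega)

theorem sq_le {i : ℕ} (hi : i ≤ n) : i * (i + 1) * GG n c ≤ (n * n + n) * GG n c := by
  have : i * (i + 1) ≤ n * n + n := by nlinarith
  exact Nat.mul_le_mul_right _ this

/-- the time from the start of a left job to the end -/
theorem W_lt {i : ℕ} (hi : i ≤ n) : MM n c + tr n c (n - i) (bod n F i) +
    hsum (han n c) (bod n F i) < (2 * i + 3) * MM n c := by
  have h1 := tr_bod (c := c) (F := F) hi
  have h2 := hsum_bod (c := c) (F := F) hi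
  have h3 := earlyS_mono (c := c) (F := F) hi
  have h4 := lateS_add_earlyS (c := c) F n
  have h5 := MM_eq (n := n) (c := c)
  have h6 := sq_le (c := c) hi
  have hG := GG_le (n := n) (c := c)
  have h7 : (n * n + 3 * n + 2) * GG n c = (n * n + n) * GG n c + 2 * (n + 1) * GG n c := by ring
  have h8 : (n + 2) * GG n c = (n + 1) * GG n c + GG n c := by ring
  have h9 : (2 * i + 3) * MM n c = (2 * i + 1) * MM n c + 2 * MM n c := by ring
  have h10 : i * i ≤ 2 * n * i := by nlinarith
  have h11 : 0 < 4 * ((n + 1) * (n + 1)) := by positivity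
  omega

theorem good_of (ht : t < AA n c) (hF : lateS c F n = t) : Good n t c (0 :: bod n F n) := by
  have hA := lateS_add_earlyS (c := c) F n
  have hG := GG_le (n := n) (c := c)
  have hE : 3 * earlyS c F n + t = EE n t c := by unfold EE; omega
  refine ⟨?_, ?_, ?_, ?_⟩
  · rw [List.nodup_cons]
    refine ⟨?_, bod_nodup le_rfl⟩
    rw [mem_bod]
    rintro (h | ⟨j, hj, _, h⟩ | ⟨j, hj, h⟩ | ⟨j, hj, h⟩ | ⟨j, hj, _, h⟩) <;> omega
  · intro v
    rw [List.mem_cons, mem_bod]
    constructor
    · rintro (h | h | ⟨j, hj, _, h⟩ | ⟨j, hj, h⟩ | ⟨j, hj, h⟩ | ⟨j, hj, _, h⟩) <;> omega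
    · intro hv
      by_cases h0 : v = 0
      · exact Or.inl h0
      right
      by_cases h1 : v = 3 * n + 1
      · exact Or.inl h1
      right
      by_cases h2 : v ≤ n
      · exact Or.inr (Or.inr (Or.inl ⟨n - v, by omega, by omega⟩))
      · rcases Nat.even_or_odd' (v - n - 1) with ⟨k, hk | hk⟩
        · exact Or.inr (Or.inl ⟨k, by omega, by omega⟩)
        · by_cases hFk : F k = true
          · exact Or.inl ⟨k, by omega, hFk, by omega⟩
          · exact Or.inr (Or.inr (Or.inr ⟨k, by omega, by simpa using hFk, by omega⟩))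
  · have h1 := tr_bod (c := c) (F := F) (le_refl n)
    have h2 := hsum_bod (c := c) (F := F) (le_refl n)
    have hK := KK_eq (n := n) (c := c) (t := t)
    rw [Nat.sub_self] at h1
    have h3 : han n c 0 = MM n c := by unfold han; simp
    have h5 : 2 * n * n = 2 * (n * n) := by ring
    have h6 : (2 * n + 2) * MM n c = (2 * n + 1) * MM n c + MM n c := by ring
    rw [hsum_cons, h2, h3]
    unfold tr at h1 ⊢
    simp only [trav, pos_zero] at h1 ⊢
    unfold dd at h1 ⊢
    omega
  · -- all the deadlines
    have main : ∀ i ≤ n, ∀ v σ, v :: σ <:+ (n - i) :: bod n F i →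
        han n c v + tr n c v σ + hsum (han n c) σ ≤ dl n t c v := by
      intro i
      induction i with
      | zero =>
        intro _ v σ h
        rw [List.suffix_cons_iff] at h
        rcases h with h | h
        · rw [List.cons.injEq] at h
          obtain ⟨hv, rfl⟩ := h
          rw [hv]
          have h1 := tr_bod (c := c) (F := F) (Nat.zero_le n)
          have h2 := hsum_bod (c := c) (F := F) (Nat.zero_le n)
          have h3 : dl n t c (n - 0) = _ := dl_C
          have h4 := n_le_G (n := n) (c := c) n
          have h5 : 2 * (n + 1) * GG n c = (n + 1) * GG n c + (n + 1) * GG n c := by ring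
          have h6 : earlyS c F 0 = 0 := by simp [earlyS]
          rw [h3, han_L (Nat.zero_le n), h2]
          simp only [h6, zero_mul, mul_zero, add_zero, zero_add, one_mul] at h1 ⊢
          omega
        · simp only [bod] at h
          rw [List.suffix_cons_iff] at h
          rcases h with h | h
          · rw [List.cons.injEq] at h
            obtain ⟨rfl, rfl⟩ := h
            rw [tr_D_lates, han_D, hsum_lates le_rfl, dl_D]
            have h5 := MM_eq (n := n) (c := c)
            have h7 : (n * n + 3 * n + 2) * GG n c = (n * n + n) * GG n c +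
              2 * (n + 1) * GG n c := by ring
            have h8 : (n + 2) * GG n c = (n + 1) * GG n c + GG n c := by ring
            have h11 : 0 < 4 * ((n + 1) * (n + 1)) := by positivity
            omega
          · obtain ⟨j, hj, rfl, rfl⟩ := suffix_lates h
            rw [hsum_lates (by omega), han_I hj, dl_I hj, tr_lates (by omega), pos_I hj]
            · have h1 := lateS_mono (c := c) (F := F) (show j ≤ n by omega)
              have h2 := le_AA (c := c) hj
              have h3 : (j + 1) * (j + 2) * GG n c = (j + 1) * GG n c + (j + 1) * (j + 1) * GG n c := by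
                ring
              have h4 : 2 * (n + 1) * GG n c = GG n c + (2 * n + 1) * GG n c := by ring
              omega
            · intro k hk
              rw [pos_I hj]
              have h2 : (k + 1) * GG n c + GG n c ≤ (j + 1) * GG n c := by
                calc (k + 1) * GG n c + GG n c = (k + 1 + 1) * GG n c := by ring
                  _ ≤ (j + 1) * GG n c := Nat.mul_le_mul_right _ (by omega)
              have h3 := le_AA (c := c) (show k < n by omega)
              omega
      | succ i ih =>
        intro hi v σ h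
        have hW := W_lt (c := c) (F := F) hi
        have h1 := tr_bod (c := c) (F := F) hi
        have h2 := hsum_bod (c := c) (F := F) hi
        have h2' := earlyS_mono (c := c) (F := F) hi
        rw [List.suffix_cons_iff] at h
        rcases h with h | h
        · rw [List.cons.injEq] at h
          obtain ⟨rfl, rfl⟩ := h
          rw [han_L hi, dl_L hi (by omega)]
          omega
        · simp only [bod] at h hW h1 h2
          rw [List.suffix_cons_iff] at h
          have h10 : (2 * (i + 1) + 3) * MM n c = (2 * i + 4) * MM n c + MM n c := by ring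
          have h11 : (i + 1) * (i + 1 + 1) * GG n c = (i + 1) * (i + 2) * GG n c := by ring
          have h12 : (i + 1) * (i + 1) ≤ 2 * n * (i + 1) := by nlinarith
          have h13 : (2 * i + 4) * MM n c = (2 * (i + 1) + 1) * MM n c + MM n c := by ring
          rcases h with h | h
          · rw [List.cons.injEq] at h
            obtain ⟨rfl, rfl⟩ := h
            rw [dl_B (by omega)]
            rw [hsum_cons] at hW
            unfold tr at hW ⊢
            rw [trav] at hW
            omega
          · split_ifs at h hW h1 h2 with hFi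
            · exact ih (by omega) v σ h
            · rw [List.suffix_cons_iff] at h
              rcases h with h | h
              · rw [List.cons.injEq] at h
                obtain ⟨rfl, rfl⟩ := h
                rw [dl_I (by omega)]
                rw [hsum_cons, hsum_cons] at h2
                unfold tr at h1 ⊢
                rw [trav, trav] at h1
                omega
              · exact ih (by omega) v σ h
    intro v σ h
    have := main n le_rfl v σ
    rw [Nat.sub_self] at this
    exact this h

end bwd

end main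


/-! ### From instances to schedules on the line -/

section link
variable {n t : ℕ} {c : ℕ → ℕ}

theorem pos_mono (h0 : 0 < n) (hc : ∀ i < n, 0 < c i) {v : ℕ} (hv : v < 3 * n + 1) :
    pos n c v < pos n c (v + 1) := by
  have hG := GG_le (n := n) (c := c)
  have hn : n < GG n c := by nlinarith
  rcases Nat.lt_trichotomy v n with h | rfl | h
  · unfold pos
    rw [if_pos (by omega), if_pos (by omega)]
    omega
  · have h1 := pos_B (c := c) h0
    rw [Nat.mul_zero, Nat.add_zero] at h1
    rw [h1]
    unfold pos
    rw [if_pos le_rfl]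
    omega
  · rcases Nat.even_or_odd' (v - n - 1) with ⟨k, hk | hk⟩
    · have hkn : k < n := by omega
      have e1 : v = n + 1 + 2 * k := by omega
      have e2 : v + 1 = n + 2 + 2 * k := by omega
      rw [e2, e1, pos_B hkn, pos_I hkn]
      have := hc k hkn
      omega
    · have hkn : k < n := by omega
      have e1 : v = n + 2 + 2 * k := by omega
      have h2 := le_AA (c := c) hkn
      have h3 : (k + 1 + 1) * GG n c = (k + 1) * GG n c + GG n c := by ring
      by_cases hk1 : k + 1 < n
      · have e2 : v + 1 = n + 1 + 2 * (k + 1) := by omega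
        rw [e2, e1, pos_B hk1, pos_I hkn]
        omega
      · have e2 : v + 1 = 3 * n + 1 := by omega
        rw [e2, e1, pos_D, pos_I hkn]
        have : n = k + 1 := by omega
        have h4 : (n + 1) * GG n c = (k + 1 + 1) * GG n c := by rw [← this]
        omega

theorem sum_Ico_pos (f : ℕ → ℕ) {N : ℕ} (hf : ∀ v < N, f v ≤ f (v + 1)) (i : ℕ) : ∀ j, i ≤ j →
    j ≤ N → ∑ k ∈ Finset.Ico i j, (f (k + 1) - f k) = f j - f i ∧ f i ≤ f j := by
  intro j hij
  induction j, hij using Nat.le_induction with
  | base => intro _; simp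
  | succ j hij ih =>
    intro hj
    obtain ⟨h1, h2⟩ := ih (by omega)
    have h3 := hf j (by omega)
    rw [Finset.sum_Ico_succ_top hij, h1]
    constructor <;> omega

/-- the list of the edges -/
def edges (n : ℕ) (c : ℕ → ℕ) : List (ℕ × ℕ) :=
  (List.range (3 * n + 1)).map fun v => (pos n c (v + 1) - pos n c v, pos n c (v + 1) - pos n c v)

/-- the list of the jobs -/
def jobs (n t : ℕ) (c : ℕ → ℕ) : List (ℕ × ℕ) :=
  (List.range (3 * n + 2)).map fun v => (rel n t c v, han n c v)

theorem getD_map_range {β : Type} (f : ℕ → β) (N k : ℕ) (d : β) (hk : k < N) :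
    ((List.range N).map f).getD k d = f k := by
  rw [List.getD_eq_getElem _ _ (by simpa using hk)]
  simp

theorem travel_edges (h0 : 0 < n) (hc : ∀ i < n, 0 < c i) {i j : ℕ} (hi : i < 3 * n + 2)
    (hj : j < 3 * n + 2) : travel (edges n c) i j = dd (pos n c i) (pos n c j) := by
  have key : ∀ i j, i ≤ j → j < 3 * n + 2 →
      ∑ k ∈ Finset.Ico i j, ((edges n c).getD k (0, 0)).1 = pos n c j - pos n c i ∧
      ∑ k ∈ Finset.Ico i j, ((edges n c).getD k (0, 0)).2 = pos n c j - pos n c i ∧
      pos n c i ≤ pos n c j := by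
    intro i j hij hj
    have h1 := sum_Ico_pos (pos n c) (N := 3 * n + 1) (fun v hv => (pos_mono h0 hc hv).le) i j hij
      (by omega)
    have h2 : ∀ k ∈ Finset.Ico i j, (edges n c).getD k (0, 0) =
        (pos n c (k + 1) - pos n c k, pos n c (k + 1) - pos n c k) := by
      intro k hk
      rw [Finset.mem_Ico] at hk
      exact getD_map_range _ _ _ _ (by omega)
    refine ⟨?_, ?_, h1.2⟩
    · rw [← h1.1]
      exact Finset.sum_congr rfl fun k hk => by rw [h2 k hk]
    · rw [← h1.1]
      exact Finset.sum_congr rfl fun k hk => by rw [h2 k hk]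
  unfold travel dd
  rcases Nat.le_total i j with h | h
  · obtain ⟨h1, _, h3⟩ := key i j h hj
    rw [h1, Finset.Ico_eq_empty (by omega), Finset.sum_empty]
    omega
  · obtain ⟨_, h2, h3⟩ := key j i h hi
    rw [h2, Finset.Ico_eq_empty (by omega), Finset.sum_empty]
    omega

theorem trav_edges (h0 : 0 < n) (hc : ∀ i < n, 0 < c i) (σ : List ℕ) : ∀ v, v < 3 * n + 2 →
    (∀ u ∈ σ, u < 3 * n + 2) → trav (travel (edges n c)) 0 v σ = tr n c v σ := by
  induction σ with
  | nil =>
    intro v hv _
    simp only [trav, tr]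
    rw [travel_edges h0 hc hv (by omega)]
  | cons u σ ih =>
    intro v hv hσ
    have hu := hσ u (by simp)
    simp only [trav, tr]
    rw [travel_edges h0 hc hv hu, ih u hu (fun w hw => hσ w (by simp [hw]))]

theorem hsum_jobs (σ : List ℕ) (hσ : ∀ u ∈ σ, u < 3 * n + 2) :
    hsum (fun v => ((jobs n t c).getD v (0, 0)).2) σ = hsum (han n c) σ := by
  unfold hsum
  congr 1
  refine List.map_congr_left fun u hu => ?_
  unfold jobs
  rw [getD_map_range _ _ _ _ (hσ u hu)]

theorem jobs_getD {v : ℕ} (hv : v < 3 * n + 2) : (jobs n t c).getD v (0, 0) =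
    (rel n t c v, han n c v) := getD_map_range _ _ _ _ hv

/-- the instance -/
def inst (n t : ℕ) (c : ℕ → ℕ) : Inst := ((jobs n t c, edges n c), (0, KK n t c))

theorem line_iff (h0 : 0 < n) (hc : ∀ i < n, 0 < c i) (ht : t < AA n c) :
    LineVehicle (inst n t c) ↔ ∃ π, Good n t c π := by
  have hlen : (inst n t c).1.1.length = 3 * n + 2 := by simp [inst, jobs]
  have hlen2 : (inst n t c).1.2.length = 3 * n + 1 := by simp [inst, edges]
  constructor
  · rintro ⟨_, π, hπ, hK⟩
    rw [hlen] at hπ
    have hmem : ∀ v, v ∈ π ↔ v < 3 * n + 2 := fun v => by rw [hπ.mem_iff, List.mem_range]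
    unfold completion inst at hK
    simp only at hK
    rw [finish_le_iff] at hK
    obtain ⟨h1, h2⟩ := hK
    rw [trav_edges h0 hc π 0 (by omega) (fun u hu => (hmem u).1 hu),
      hsum_jobs π (fun u hu => (hmem u).1 hu)] at h1
    refine ⟨π, hπ.nodup_iff.2 List.nodup_range, hmem, by omega, ?_⟩
    intro v σ h
    have hv : v < 3 * n + 2 := (hmem v).1 (h.subset (by simp))
    have hσ : ∀ u ∈ σ, u < 3 * n + 2 := fun u hu => (hmem u).1 (h.subset (by simp [hu]))
    have h3 := h2 v σ h
    rw [trav_edges h0 hc σ v hv hσ, hsum_jobs σ hσ, jobs_getD hv] at h3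
    simp only [rel] at h3
    omega
  · rintro ⟨π, g⟩
    have hmem := g.mem
    refine ⟨⟨by rw [hlen, hlen2], by rw [hlen]; change 0 < _; omega⟩, π, ?_, ?_⟩
    · rw [hlen]
      exact (List.perm_ext_iff_of_nodup g.nd List.nodup_range).2 fun v => by
        rw [g.mem, List.mem_range]
    · unfold completion inst
      simp only
      rw [finish_le_iff]
      rw [trav_edges h0 hc π 0 (by omega) (fun u hu => (hmem u).1 hu),
        hsum_jobs π (fun u hu => (hmem u).1 hu)]
      have htot := g.tot
      refine ⟨by omega, ?_⟩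
      intro v σ h
      have hv : v < 3 * n + 2 := (hmem v).1 (h.subset (by simp))
      have hσ : ∀ u ∈ σ, u < 3 * n + 2 := fun u hu => (hmem u).1 (h.subset (by simp [hu]))
      rw [trav_edges h0 hc σ v hv hσ, hsum_jobs σ hσ, jobs_getD hv]
      have h1 := g.dead v σ h
      obtain ⟨α, hα⟩ := h
      have h2 := trav_append_ge (fun v w => dd (pos n c v) (pos n c w)) 0
        (fun x y z => dd_tri _ _ _) 0 v σ α
      rw [hα] at h2
      have h3 : hsum (han n c) π = hsum (han n c) α + (han n c v + hsum (han n c) σ) := by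
        rw [← hα, hsum_append, hsum_cons]
      simp only [rel]
      unfold tr at htot h1 ⊢
      omega

theorem line_iff_subset (h0 : 0 < n) (hc : ∀ i < n, 0 < c i) (ht : t < AA n c) :
    LineVehicle (inst n t c) ↔ ∃ F : ℕ → Bool, lateS c F n = t := by
  rw [line_iff h0 hc ht]
  constructor
  · rintro ⟨π, g⟩
    obtain ⟨S, hS, hSt⟩ := g.subset ht
    classical
    refine ⟨fun i => decide (i ∈ S), ?_⟩
    unfold lateS
    simp only [decide_eq_true_eq]
    rw [← Finset.sum_filter, Finset.filter_mem_eq_inter, Finset.inter_eq_right.2 hS, hSt]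
  · rintro ⟨F, hF⟩
    exact ⟨_, good_of ht hF⟩

theorem inst_props (h0 : 0 < n) (hc : ∀ i < n, 0 < c i) :
    IsInst (inst n t c) ∧ PosHandling (inst n t c) ∧ Simple (inst n t c) := by
  have hG := GG_le (n := n) (c := c)
  have hM : 0 < MM n c := by
    unfold MM
    have : 0 < GG n c := by
      have : 0 < 4 * ((n + 1) * (n + 1)) := by positivity
      omega
    positivity
  refine ⟨⟨by simp [inst, edges, jobs], by simp [inst, jobs]⟩, ?_, ?_, rfl⟩
  · intro j hj
    simp only [inst, jobs, List.mem_map, List.mem_range] at hj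
    obtain ⟨v, hv, rfl⟩ := hj
    simp only
    unfold han
    split_ifs with h1 h2 h3
    · exact hM
    · exact hM
    · exact hM
    · exact hc _ (by omega)
  · intro e he
    simp only [inst, edges, List.mem_map, List.mem_range] at he
    obtain ⟨v, hv, rfl⟩ := he
    have := pos_mono h0 hc hv
    exact ⟨by simp only; omega, rfl⟩

end link

/-! ### The reduction -/

theorem AA_eq (l : List ℕ) : AA l.length (fun i => l.getD i 0) = l.sum := by
  unfold AA
  induction l with
  | nil => simp
  | cons a l ih =>
    rw [List.length_cons, Finset.sum_range_succ', List.sum_cons]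
    simp only [List.getD_cons_succ, List.getD_cons_zero]
    rw [ih, Nat.add_comm]

theorem sublist_iff (l : List ℕ) : ∀ t : ℕ, (∃ s : List ℕ, s.Sublist l ∧ s.sum = t) ↔
    ∃ F : ℕ → Bool, lateS (fun i => l.getD i 0) F l.length = t := by
  unfold lateS
  induction l with
  | nil =>
    intro t
    constructor
    · rintro ⟨s, hs, rfl⟩
      rw [List.sublist_nil] at hs
      subst hs
      exact ⟨fun _ => false, by simp⟩
    · rintro ⟨F, hF⟩
      exact ⟨[], List.Sublist.refl _, by simpa using hF⟩
  | cons a l ih =>
    intro t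
    constructor
    · rintro ⟨s, hs, rfl⟩
      rcases List.sublist_cons_iff.1 hs with h | ⟨r, rfl, hr⟩
      · obtain ⟨F, hF⟩ := (ih s.sum).1 ⟨s, h, rfl⟩
        refine ⟨fun i => match i with | 0 => false | i + 1 => F i, ?_⟩
        rw [List.length_cons, Finset.sum_range_succ']
        simpa using hF
      · obtain ⟨F, hF⟩ := (ih r.sum).1 ⟨r, hr, rfl⟩
        refine ⟨fun i => match i with | 0 => true | i + 1 => F i, ?_⟩
        rw [List.length_cons, Finset.sum_range_succ', List.sum_cons, ← hF]
        simp [Nat.add_comm]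
    · rintro ⟨F, hF⟩
      rw [List.length_cons, Finset.sum_range_succ'] at hF
      obtain ⟨s, hs, hst⟩ := (ih _).2 ⟨fun i => F (i + 1), rfl⟩
      simp only [List.getD_cons_succ, List.getD_cons_zero] at hF
      by_cases h : F 0 = true
      · refine ⟨a :: s, hs.cons_cons a, ?_⟩
        rw [List.sum_cons, hst, ← hF, if_pos h, Nat.add_comm]
      · refine ⟨s, hs.cons a, ?_⟩
        rw [hst, ← hF, if_neg h, Nat.add_zero]

/-- the reduction -/
def red (x : List ℕ × ℕ) : Inst := inst x.1.length x.2 (fun i => x.1.getD i 0)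

section poly

theorem poly_AA : Poly (fun x : List ℕ × ℕ => AA x.1.length (fun i => x.1.getD i 0)) :=
  (show Poly (fun x : List ℕ × ℕ => x.1.sum) by fun_prop).congr fun x => (AA_eq x.1).symm

theorem poly_GG : Poly (fun x : List ℕ × ℕ => GG x.1.length (fun i => x.1.getD i 0)) := by
  have h := poly_AA
  unfold GG
  fun_prop

theorem poly_MM : Poly (fun x : List ℕ × ℕ => MM x.1.length (fun i => x.1.getD i 0)) := by
  have h := poly_GG
  unfold MM
  fun_prop

theorem poly_EE : Poly (fun x : List ℕ × ℕ => EE x.1.length x.2 (fun i => x.1.getD i 0)) := by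
  have h := poly_AA
  unfold EE
  fun_prop

theorem poly_KK : Poly (fun x : List ℕ × ℕ => KK x.1.length x.2 (fun i => x.1.getD i 0)) := by
  have h1 := poly_GG
  have h2 := poly_MM
  have h3 := poly_EE
  unfold KK
  fun_prop

theorem poly_pos : Poly (fun p : (List ℕ × ℕ) × ℕ =>
    pos p.1.1.length (fun i => p.1.1.getD i 0) p.2) := by
  have h1 : Poly (fun p : (List ℕ × ℕ) × ℕ => GG p.1.1.length (fun i => p.1.1.getD i 0)) :=
    poly_GG.comp (Poly.fst Poly.id)
  unfold pos
  fun_prop

theorem poly_han : Poly (fun p : (List ℕ × ℕ) × ℕ =>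
    han p.1.1.length (fun i => p.1.1.getD i 0) p.2) := by
  have h1 : Poly (fun p : (List ℕ × ℕ) × ℕ => MM p.1.1.length (fun i => p.1.1.getD i 0)) :=
    poly_MM.comp (Poly.fst Poly.id)
  unfold han
  fun_prop

theorem poly_rel : Poly (fun p : (List ℕ × ℕ) × ℕ =>
    rel p.1.1.length p.1.2 (fun i => p.1.1.getD i 0) p.2) := by
  have h1 : Poly (fun p : (List ℕ × ℕ) × ℕ => MM p.1.1.length (fun i => p.1.1.getD i 0)) :=
    poly_MM.comp (Poly.fst Poly.id)
  have h2 : Poly (fun p : (List ℕ × ℕ) × ℕ => GG p.1.1.length (fun i => p.1.1.getD i 0)) :=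
    poly_GG.comp (Poly.fst Poly.id)
  have h3 : Poly (fun p : (List ℕ × ℕ) × ℕ => EE p.1.1.length p.1.2 (fun i => p.1.1.getD i 0)) :=
    poly_EE.comp (Poly.fst Poly.id)
  have h4 : Poly (fun p : (List ℕ × ℕ) × ℕ => KK p.1.1.length p.1.2 (fun i => p.1.1.getD i 0)) :=
    poly_KK.comp (Poly.fst Poly.id)
  unfold rel dl
  fun_prop

attribute [local irreducible] pos GG MM EE KK han rel dl

theorem poly_jobs : Poly (fun x : List ℕ × ℕ => jobs x.1.length x.2 (fun i => x.1.getD i 0)) := by
  have hu1 : Poly (fun x : List ℕ × ℕ => List.range (3 * x.1.length + 2)) :=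
    (UPoly.add (UPoly.mul (UPoly.const 3) (UPoly.length (Poly.fst Poly.id))) (UPoly.const 2)).range
  exact Poly.map (F := fun (x : List ℕ × ℕ) v => (rel x.1.length x.2 (fun i => x.1.getD i 0) v,
      han x.1.length (fun i => x.1.getD i 0) v)) hu1 (Poly.pair poly_rel poly_han)

theorem poly_edges : Poly (fun x : List ℕ × ℕ => edges x.1.length (fun i => x.1.getD i 0)) := by
  have hu2 : Poly (fun x : List ℕ × ℕ => List.range (3 * x.1.length + 1)) :=
    (UPoly.add (UPoly.mul (UPoly.const 3) (UPoly.length (Poly.fst Poly.id))) (UPoly.const 1)).range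
  have h4 : Poly (fun p : (List ℕ × ℕ) × ℕ =>
      pos p.1.1.length (fun i => p.1.1.getD i 0) (p.2 + 1)) :=
    poly_pos.comp (Poly.pair (Poly.fst Poly.id) (Poly.add (Poly.snd Poly.id) (Poly.const 1)))
  have h5 := Poly.sub h4 poly_pos
  exact Poly.map (F := fun (x : List ℕ × ℕ) v =>
      (pos x.1.length (fun i => x.1.getD i 0) (v + 1) - pos x.1.length (fun i => x.1.getD i 0) v,
      pos x.1.length (fun i => x.1.getD i 0) (v + 1) - pos x.1.length (fun i => x.1.getD i 0) v))
      hu2 (Poly.pair h5 h5)

theorem poly_red : Poly red :=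
  Poly.pair (Poly.pair poly_jobs poly_edges) (Poly.pair (Poly.const 0) poly_KK)

end poly

theorem hardPr_lineVehicle :
    HardPr (fun I : Inst => IsInst I ∧ PosHandling I ∧ Simple I) LineVehicle := by
  have hx0 : ∀ x : List ℕ × ℕ, Nice x → 0 < x.1.length ∧
      (∀ i < x.1.length, 0 < x.1.getD i 0) ∧ x.2 < AA x.1.length (fun i => x.1.getD i 0) := by
    intro x hx
    refine ⟨?_, ?_, ?_⟩
    · rcases Nat.eq_zero_or_pos x.1.length with h | h
      · have h1 := List.length_eq_zero_iff.1 h
        have h2 := hx.2
        rw [h1] at h2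
        simp at h2
      · exact h
    · intro i hi
      rw [List.getD_eq_getElem _ _ hi]
      exact (hx.1 _ (List.getElem_mem hi)).1
    · rw [AA_eq]; exact hx.2
  refine hardPr_SubsetSum.trans poly_red (fun x hx => ?_) (fun x hx => ?_)
  · obtain ⟨h1, h2, _⟩ := hx0 x hx
    exact inst_props h1 h2
  · obtain ⟨h1, h2, h3⟩ := hx0 x hx
    unfold SubsetSum red
    rw [line_iff_subset h1 h2 h3, sublist_iff]

/-! ### Membership in `NP` -/

/-- the time for each job, including the travel to the next vertex -/
def costs (J E : List (ℕ × ℕ)) (s : ℕ) (π : List ℕ) : List ℕ :=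
  (π.zip (π.tail ++ [s])).map fun p => (J.getD p.1 (0, 0)).2 + travel E p.1 p.2

theorem costs_cons (J E : List (ℕ × ℕ)) (s v : ℕ) (σ : List ℕ) :
    (costs J E s (v :: σ)).sum = (J.getD v (0, 0)).2 + trav (travel E) s v σ +
      hsum (fun v => (J.getD v (0, 0)).2) σ := by
  induction σ generalizing v with
  | nil => simp [costs, trav]
  | cons u σ ih =>
    have h := ih u
    simp only [costs, List.tail_cons, List.cons_append, List.zip_cons_cons, List.map_cons,
      List.sum_cons, trav, hsum_cons] at h ⊢
    omega

theorem costs_drop (J E : List (ℕ × ℕ)) (s : ℕ) (π : List ℕ) (k : ℕ) :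
    (costs J E s π).drop k = costs J E s (π.drop k) := by
  induction k generalizing π with
  | zero => simp
  | succ k ih =>
    cases π with
    | nil => simp [costs]
    | cons v σ =>
      rw [List.drop_succ_cons, ← ih]
      cases σ with
      | nil => simp [costs]
      | cons u σ => simp [costs]

theorem completion_le_iff (J E : List (ℕ × ℕ)) (s K : ℕ) {π : List ℕ} (hπ : π ≠ []) :
    finish J E s 0 s π ≤ K ↔ travel E s (π.getD 0 0) + (costs J E s π).sum ≤ K ∧
      ∀ k < π.length, (J.getD (π.getD k 0) (0, 0)).1 + ((costs J E s π).drop k).sum ≤ K := by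
  rw [finish_le_iff]
  have h1 : 0 + trav (travel E) s s π + hsum (fun v => (J.getD v (0, 0)).2) π =
      travel E s (π.getD 0 0) + (costs J E s π).sum := by
    cases π with
    | nil => exact absurd rfl hπ
    | cons v σ =>
      rw [costs_cons]
      simp only [trav, hsum_cons, List.getD_cons_zero]
      omega
  rw [h1]
  refine and_congr Iff.rfl ?_
  constructor
  · intro h k hk
    have h2 : π.drop k = π.getD k 0 :: π.drop (k + 1) := by
      rw [List.getD_eq_getElem _ _ hk, List.drop_eq_getElem_cons hk]
    have h3 := h (π.getD k 0) (π.drop (k + 1)) (by rw [← h2]; exact List.drop_suffix _ _)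
    rw [costs_drop, h2, costs_cons]
    omega
  · rintro h v σ ⟨α, hα⟩
    have h2 : α.length < π.length := by rw [← hα]; simp
    have h3 := h α.length h2
    have h4 : π.drop α.length = v :: σ := by rw [← hα]; simp
    have h5 : π.getD α.length 0 = v := by rw [← hα]; simp
    rw [costs_drop, h4, h5, costs_cons] at h3
    omega

/-- the travel time, by lists -/
def travelL (E : List (ℕ × ℕ)) (i j : ℕ) : ℕ :=
  (((List.range E.length).filter fun k => decide (i ≤ k) && decide (k < j)).map
    fun k => (E.getD k (0, 0)).1).sum +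
  (((List.range E.length).filter fun k => decide (j ≤ k) && decide (k < i)).map
    fun k => (E.getD k (0, 0)).2).sum

theorem travelL_eq (E : List (ℕ × ℕ)) (i j : ℕ) : travelL E i j = travel E i j := by
  have key : ∀ (f : ℕ → ℕ) (N i j : ℕ), (∀ k, N ≤ k → f k = 0) →
      (((List.range N).filter fun k => decide (i ≤ k) && decide (k < j)).map f).sum =
      ∑ k ∈ Finset.Ico i j, f k := by
    intro f N i j hf
    rw [← List.sum_toFinset _ (List.nodup_range.filter _)]
    refine Finset.sum_subset ?_ ?_
    · intro k hk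
      simp only [List.toFinset_filter, Bool.and_eq_true, decide_eq_true_eq, Finset.mem_filter,
        List.mem_toFinset, List.mem_range] at hk
      exact Finset.mem_Ico.2 hk.2
    · intro k hk hk'
      simp only [List.toFinset_filter, Bool.and_eq_true, decide_eq_true_eq, Finset.mem_filter,
        List.mem_toFinset, List.mem_range, not_and] at hk'
      rw [Finset.mem_Ico] at hk
      refine hf k ?_
      by_contra hcon
      exact hk' (by omega) hk.1 hk.2
  unfold travelL travel
  rw [key _ _ _ _ (fun k hk => by rw [List.getD_eq_default _ _ hk]),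
    key _ _ _ _ (fun k hk => by rw [List.getD_eq_default _ _ hk])]

/-- `drop`, by a filter -/
def dropL (k : ℕ) (l : List ℕ) : List ℕ :=
  (l.zipIdx.filter fun p => decide (k ≤ p.2)).map Prod.fst

theorem dropL_eq (k : ℕ) (l : List ℕ) : dropL k l = l.drop k := by
  have key : ∀ (l : List ℕ) (m k : ℕ), ((l.zipIdx m).filter fun p => decide (k + m ≤ p.2)).map
      Prod.fst = l.drop k := by
    intro l
    induction l with
    | nil => simp
    | cons a l ih =>
      intro m k
      rw [List.zipIdx_cons]
      cases k with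
      | zero =>
        have h1 := ih (m + 1) 0
        rw [List.filter_cons_of_pos (by simp)]
        rw [List.map_cons, List.drop_zero]
        have h2 : (l.zipIdx (m + 1)).filter (fun p => decide (0 + m ≤ p.2)) =
            (l.zipIdx (m + 1)).filter (fun p => decide (0 + (m + 1) ≤ p.2)) := by
          refine List.filter_congr fun p hp => ?_
          have := List.le_snd_of_mem_zipIdx hp
          simp only [decide_eq_decide]
          omega
        rw [h2, h1, List.drop_zero]
      | succ k =>
        have h1 := ih (m + 1) k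
        rw [List.filter_cons_of_neg (by simp), List.drop_succ_cons, ← h1]
        congr 2
        funext p
        simp only [decide_eq_decide]
        omega
  exact key l 0 k

/-- the costs, by lists -/
def costsL (J E : List (ℕ × ℕ)) (s : ℕ) (π : List ℕ) : List ℕ :=
  (π.zip (π.tail ++ [s])).map fun p => (J.getD p.1 (0, 0)).2 + travelL E p.1 p.2

theorem costsL_eq (J E : List (ℕ × ℕ)) (s : ℕ) (π : List ℕ) :
    costsL J E s π = costs J E s π := by
  unfold costsL costs
  simp only [travelL_eq]

/-- the test of certificates -/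
def check (q : Inst × List ℕ) : Bool :=
  decide (q.1.1.2.length + 1 = q.1.1.1.length) && (decide (q.1.2.1 < q.1.1.1.length) &&
    (decide (q.2.length = q.1.1.1.length) &&
      ((List.range q.1.1.1.length).all (fun v => decide (v ∈ q.2)) &&
        (decide (travelL q.1.1.2 q.1.2.1 (q.2.getD 0 0) +
            (costsL q.1.1.1 q.1.1.2 q.1.2.1 q.2).sum ≤ q.1.2.2) &&
          (List.range q.2.length).all (fun k => decide ((q.1.1.1.getD (q.2.getD k 0) (0, 0)).1 +
            (dropL k (costsL q.1.1.1 q.1.1.2 q.1.2.1 q.2)).sum ≤ q.1.2.2))))))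

theorem poly_travelL {α : Type} [TEnc α] {E : α → List (ℕ × ℕ)} {i j : α → ℕ} (hE : Poly E)
    (hi : Poly i) (hj : Poly j) : Poly (fun a => travelL (E a) (i a) (j a)) := by
  have hr : Poly (fun a => List.range (E a).length) := Poly.range_length hE
  have h1 : ∀ i j : α → ℕ, Poly i → Poly j → Poly (fun a => (List.range (E a).length).filter
      fun k => decide (i a ≤ k) && decide (k < j a)) := by
    intro i j hi hj
    exact Poly.filter (p := fun a k => decide (i a ≤ k) && decide (k < j a)) hr (by fun_prop)
  unfold travelL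
  refine Poly.add (Poly.sum (Poly.map (F := fun a k => ((E a).getD k (0, 0)).1) (h1 i j hi hj) ?_))
    (Poly.sum (Poly.map (F := fun a k => ((E a).getD k (0, 0)).2) (h1 j i hj hi) ?_))
  · fun_prop
  · fun_prop

theorem poly_costsL {α : Type} [TEnc α] {J E : α → List (ℕ × ℕ)} {s : α → ℕ} {π : α → List ℕ}
    (hJ : Poly J) (hE : Poly E) (hs : Poly s) (hπ : Poly π) :
    Poly (fun a => costsL (J a) (E a) (s a) (π a)) := by
  unfold costsL
  refine Poly.map (F := fun a (p : ℕ × ℕ) => ((J a).getD p.1 (0, 0)).2 + travelL (E a) p.1 p.2)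
    (by fun_prop) ?_
  refine Poly.add (by fun_prop) (poly_travelL (E := fun q : α × (ℕ × ℕ) => E q.1)
    (i := fun q => q.2.1) (j := fun q => q.2.2) (by fun_prop) (by fun_prop) (by fun_prop))

theorem poly_dropL {α : Type} [TEnc α] {k : α → ℕ} {l : α → List ℕ} (hk : Poly k) (hl : Poly l) :
    Poly (fun a => dropL (k a) (l a)) := by
  unfold dropL
  refine Poly.map (F := fun _ (p : ℕ × ℕ) => p.1) ?_ (by fun_prop)
  exact Poly.filter (p := fun a (p : ℕ × ℕ) => decide (k a ≤ p.2)) (by fun_prop) (by fun_prop)

theorem poly_check : Poly check := by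
  have h1 : Poly (fun q : Inst × List ℕ => costsL q.1.1.1 q.1.1.2 q.1.2.1 q.2) :=
    poly_costsL (by fun_prop) (by fun_prop) (by fun_prop) (by fun_prop)
  have h2 : Poly (fun q : Inst × List ℕ => travelL q.1.1.2 q.1.2.1 (q.2.getD 0 0)) :=
    poly_travelL (by fun_prop) (by fun_prop) (by fun_prop)
  unfold check
  refine Poly.and (by fun_prop) (Poly.and (by fun_prop) (Poly.and (by fun_prop) (Poly.and ?_
    (Poly.and (by fun_prop) ?_))))
  · exact Poly.all (p := fun (q : Inst × List ℕ) v => decide (v ∈ q.2))
      (Poly.range_length (by fun_prop)) (by fun_prop)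
  · refine Poly.all (p := fun (q : Inst × List ℕ) k =>
      decide ((q.1.1.1.getD (q.2.getD k 0) (0, 0)).1 +
        (dropL k (costsL q.1.1.1 q.1.1.2 q.1.2.1 q.2)).sum ≤ q.1.2.2))
      (Poly.range_length (by fun_prop)) ?_
    have h3 : Poly (fun p : (Inst × List ℕ) × ℕ =>
        dropL p.2 (costsL p.1.1.1.1 p.1.1.1.2 p.1.1.2.1 p.1.2)) :=
      poly_dropL (by fun_prop) (h1.comp (Poly.fst Poly.id))
    fun_prop

theorem perm_range_iff {π : List ℕ} {N : ℕ} : π.Perm (List.range N) ↔
    π.length = N ∧ ∀ v < N, v ∈ π := by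
  constructor
  · intro h
    exact ⟨by simpa using h.length_eq, fun v hv => h.mem_iff.2 (List.mem_range.2 hv)⟩
  · rintro ⟨h1, h2⟩
    have h3 : (List.range N).Subperm π :=
      List.subperm_of_subset List.nodup_range fun v hv => h2 v (List.mem_range.1 hv)
    exact (h3.perm_of_length_le (by simp [h1])).symm

theorem check_iff (I : Inst) (π : List ℕ) : check (I, π) = true ↔
    IsInst I ∧ π.Perm (List.range I.1.1.length) ∧ completion I π ≤ I.2.2 := by
  unfold check IsInst completion
  simp only [Bool.and_eq_true, decide_eq_true_eq, List.all_eq_true, List.mem_range, travelL_eq,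
    costsL_eq, dropL_eq]
  rw [perm_range_iff]
  constructor
  · rintro ⟨h1, h2, h3, h4, h5, h6⟩
    refine ⟨⟨h1, h2⟩, ⟨h3, h4⟩, ?_⟩
    rw [completion_le_iff]
    · exact ⟨h5, h6⟩
    · rintro rfl
      simp only [List.length_nil] at h3
      omega
  · rintro ⟨⟨h1, h2⟩, ⟨h3, h4⟩, h5⟩
    rw [completion_le_iff] at h5
    · exact ⟨h1, h2, h3, h4, h5.1, h5.2⟩
    · rintro rfl
      simp only [List.length_nil] at h3
      omega

theorem inNP : InNPP LineVehicle := by
  refine inNPP_of poly_check (Polynomial.X * (Polynomial.C 4 * Polynomial.X + Polynomial.C 2) +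
    Polynomial.C 1) fun I => ?_
  constructor
  · rintro ⟨hI, π, hπ, hK⟩
    refine ⟨π, ?_, (check_iff I π).2 ⟨hI, hπ, hK⟩⟩
    have h1 : I.1.1.length < sz I := by
      have h2 := length_lt_sz I.1.1
      obtain ⟨⟨J, E⟩, s, K⟩ := I
      simp only [sz_pair] at h2 ⊢
      omega
    have h2 := sz_le_length_mul π (4 * I.1.1.length + 1) (by
      intro v hv
      have h3 := List.mem_range.1 (hπ.mem_iff.1 hv)
      have h4 := sz_nat_le v
      have h5 := Poly.size_le_self v
      omega)
    have h3 : π.length = I.1.1.length := by simpa using hπ.length_eq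
    simp only [Polynomial.eval_add, Polynomial.eval_mul, Polynomial.eval_X, Polynomial.eval_C]
    rw [h3] at h2
    refine h2.trans ?_
    have h4 : I.1.1.length * (4 * I.1.1.length + 1 + 1) ≤ sz I * (4 * sz I + 2) :=
      Nat.mul_le_mul (by omega) (by omega)
    omega
  · rintro ⟨π, _, hπ⟩
    rw [check_iff] at hπ
    exact ⟨hπ.1, π, hπ.2⟩

end Pool.Agent.NPC.Line129
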