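import Pool.Agent.NPC.Dec

/-!
# Pairs of perfect matchings of a 2-edge-coloured bipartite graph: the definitions
-/

set_option autoImplicit false

namespace Pool.Agent.NPC.PM129

/-- A 2-edge-coloured bipartite graph: `B.1.1` lists the vertices on the side `U`, `B.1.2` lists the
vertices on the side `V` (the sides are disjoint: a number on the first list and the same number on
the second list are two different vertices), and `B.2` lists the edges. The entry `((u, v), c)` is
the edge joining `u` on the side `U` with `v` on the side `V`; its colour is `1` if `c = true` and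
`2` if `c = false`. -/
abbrev Bip : Type := (List ℕ × List ℕ) × List ((ℕ × ℕ) × Bool)

/-- The lists describe a simple bipartite graph whose edges are coloured: no vertex is listed twice
on a side, no edge is listed twice (so it has one colour), and the ends of the edges are vertices on
the respective sides. -/
def IsBip (B : Bip) : Prop :=
  B.1.1.Nodup ∧ B.1.2.Nodup ∧ (B.2.map Prod.fst).Nodup ∧ ∀ e ∈ B.2, e.1.1 ∈ B.1.1 ∧ e.1.2 ∈ B.1.2

/-- `M` is a perfect matching: a set of edges which covers every vertex exactly once. -/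
def IsPM (B : Bip) (M : Finset (ℕ × ℕ)) : Prop :=
  (∀ e ∈ M, e ∈ B.2.map Prod.fst) ∧ (∀ u ∈ B.1.1, ∃! e, e ∈ M ∧ e.1 = u) ∧
    ∀ v ∈ B.1.2, ∃! e, e ∈ M ∧ e.2 = v

/-- **COL-2PM**: there are edge-disjoint perfect matchings `M₁` and `M₂` such that every edge of
`M₁` has colour `1`. -/
def COL2PM (B : Bip) : Prop :=
  IsBip B ∧ ∃ M₁ M₂ : Finset (ℕ × ℕ), IsPM B M₁ ∧ IsPM B M₂ ∧ Disjoint M₁ M₂ ∧
    ∀ e ∈ M₁, (e, true) ∈ B.2

end Pool.Agent.NPC.PM129
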