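import Pool.Agent.NPC.Sat2
import Pool.Agent.H671R2.PolyAuto
import Pool.Agent.H129.PMDefs

/-!
# COL-2PM is NP-complete: the proof

Reduction from 3SAT. For every variable there is an even cycle of colour 1, so that `M₁` contains
one of the two perfect matchings of the cycle and `M₂` can only use edges of the other one. For a
clause there are two further vertices joined by an edge of colour 1, and edges of colour 2 which
allow `M₂` to match them with the two ends of one edge of the cycle of a variable of the clause; for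
a positive literal this is an edge of the first perfect matching of the cycle, for a negative one an
edge of the second.
-/

set_option autoImplicit false

namespace Pool.Agent.NPC.PM129

open Pool.Agent.NPC

theorem isPM_of {B : Bip} (f g : ℕ → ℕ) (h1 : ∀ u ∈ B.1.1, (u, f u) ∈ B.2.map Prod.fst)
    (h2 : ∀ v ∈ B.1.2, g v ∈ B.1.1 ∧ f (g v) = v) (h3 : ∀ u ∈ B.1.1, g (f u) = u) :
    IsPM B (B.1.1.toFinset.image fun u => (u, f u)) := by
  refine ⟨?_, ?_, ?_⟩
  · intro e he
    simp only [Finset.mem_image, List.mem_toFinset] at he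
    obtain ⟨u, hu, rfl⟩ := he
    exact h1 u hu
  · intro u hu
    refine ⟨(u, f u), ⟨?_, rfl⟩, ?_⟩
    · simp only [Finset.mem_image, List.mem_toFinset]
      exact ⟨u, hu, rfl⟩
    · rintro e ⟨he, heu⟩
      simp only [Finset.mem_image, List.mem_toFinset] at he
      obtain ⟨u', _, rfl⟩ := he
      simp only at heu
      rw [heu]
  · intro v hv
    refine ⟨(g v, v), ⟨?_, rfl⟩, ?_⟩
    · simp only [Finset.mem_image, List.mem_toFinset]
      exact ⟨g v, (h2 v hv).1, by rw [(h2 v hv).2]⟩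
    · rintro e ⟨he, hev⟩
      simp only [Finset.mem_image, List.mem_toFinset] at he
      obtain ⟨u', hu', rfl⟩ := he
      simp only at hev
      have := h3 u' hu'
      rw [hev] at this
      rw [this, hev]

/-! ### The graph -/

abbrev Form : Type := List (Lit ℕ × Lit ℕ × Lit ℕ)

/-- the number of slots -/
def KK (φ : Form) : ℕ := 3 * φ.length * φ.length

/-- the next slot on the cycle of the variable -/
def nx (m s : ℕ) : ℕ := if (s + 1) % m = 0 then s + 1 - m else s + 1

/-- the previous slot on the cycle of the variable -/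
def pv (m s : ℕ) : ℕ := if s % m = 0 then s + m - 1 else s - 1

/-- the literals of a clause -/
def lits (c : Lit ℕ × Lit ℕ × Lit ℕ) : List (Lit ℕ) := [c.1, c.2.1, c.2.2]

/-- the literal `b` of the variable `s / m` is in the clause `s % m` -/
def occ (φ : Form) (b : Bool) (s : ℕ) : Bool :=
  decide ((b, s / φ.length) ∈ lits (φ.getD (s % φ.length) ((true, 0), (true, 0), (true, 0))))

/-- the vertices, on both sides -/
def verts (φ : Form) : List ℕ :=
  (List.range (KK φ)).map (fun s => 3 * s) ++ ((List.range (KK φ)).map (fun s => 3 * s + 1) ++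
    (List.range φ.length).map (fun j => 3 * j + 2))

/-- the edges of colour 1 -/
def edges1 (φ : Form) : List (ℕ × ℕ) :=
  (List.range (KK φ)).map (fun s => (3 * s, 3 * s)) ++
  ((List.range (KK φ)).map (fun s => (3 * s + 1, 3 * s)) ++
  ((List.range (KK φ)).map (fun s => (3 * s + 1, 3 * s + 1)) ++
  ((List.range (KK φ)).map (fun s => (3 * nx φ.length s, 3 * s + 1)) ++
  (List.range φ.length).map (fun j => (3 * j + 2, 3 * j + 2)))))

/-- the edges of colour 2 -/
def edges2 (φ : Form) : List (ℕ × ℕ) :=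
  ((List.range (KK φ)).filter (occ φ true)).map (fun s => (3 * s, 3 * (s % φ.length) + 2)) ++
  (((List.range (KK φ)).filter (occ φ false)).map
    (fun s => (3 * s + 1, 3 * (s % φ.length) + 2)) ++
  ((List.range (KK φ)).filter (fun s => occ φ true s || occ φ false s)).map
    (fun s => (3 * (s % φ.length) + 2, 3 * s)))

/-- the edges with their colours -/
def edges (φ : Form) : List ((ℕ × ℕ) × Bool) :=
  (edges1 φ).map (fun e => (e, true)) ++ (edges2 φ).map (fun e => (e, false))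

def red (φ : Form) : Bip := ((verts φ, verts φ), edges φ)

section
variable {φ : Form}

theorem KK_pos (h : φ ≠ []) : 0 < φ.length := List.length_pos_iff.2 h

theorem slot_eq {m : ℕ} (s : ℕ) : s = m * (s / m) + s % m := (Nat.div_add_mod s m).symm

theorem mod_slot {m x j : ℕ} (hj : j < m) : (m * x + j) % m = j := by
  rw [Nat.mul_add_mod, Nat.mod_eq_of_lt hj]

theorem div_slot {m x j : ℕ} (hj : j < m) : (m * x + j) / m = x := by
  rw [Nat.mul_add_div (by omega), Nat.div_eq_of_lt hj, add_zero]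

theorem slot_lt {m x j n : ℕ} (hj : j < m) (hx : x < n) : m * x + j < n * m := by
  calc m * x + j < m * x + m := by omega
    _ = m * (x + 1) := by ring
    _ ≤ m * n := Nat.mul_le_mul_left m hx
    _ = n * m := by ring

theorem nx_slot {m x j : ℕ} (hj : j < m) :
    nx m (m * x + j) = if j + 1 = m then m * x else m * x + (j + 1) := by
  unfold nx
  by_cases h : j + 1 = m
  · rw [if_pos h, if_pos (by rw [show m * x + j + 1 = m * (x + 1) by rw [add_assoc, h]; ring]
                             exact Nat.mul_mod_right _ _)]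
    omega
  · rw [if_neg h, if_neg, add_assoc]
    rw [add_assoc, mod_slot (by omega)]
    omega

theorem pv_slot {m x j : ℕ} (hj : j < m) :
    pv m (m * x + j) = if j = 0 then m * x + (m - 1) else m * x + (j - 1) := by
  unfold pv
  rw [mod_slot hj]
  split_ifs with h
  · subst h; omega
  · omega

theorem nx_pv {m : ℕ} (hm : 0 < m) (s : ℕ) : nx m (pv m s) = s ∧ pv m s / m = s / m := by
  have hj := Nat.mod_lt s hm
  have e := slot_eq (m := m) s
  generalize s / m = x at *
  generalize s % m = j at *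
  subst e
  rw [pv_slot hj]
  split_ifs with h
  · rw [nx_slot (by omega), if_pos (by omega), div_slot (by omega)]
    subst h; exact ⟨rfl, rfl⟩
  · rw [nx_slot (by omega), if_neg (by omega), div_slot (by omega)]
    exact ⟨by omega, rfl⟩

theorem pv_nx {m : ℕ} (hm : 0 < m) (s : ℕ) : pv m (nx m s) = s ∧ nx m s / m = s / m := by
  have hj := Nat.mod_lt s hm
  have e := slot_eq (m := m) s
  generalize s / m = x at *
  generalize s % m = j at *
  subst e
  rw [nx_slot hj]
  split_ifs with h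
  · have h1 := pv_slot (m := m) (x := x) (j := 0) (by omega)
    have h2 := div_slot (m := m) (x := x) (j := 0) (by omega)
    rw [add_zero] at h1 h2
    rw [h1, if_pos rfl, h2]
    exact ⟨by omega, rfl⟩
  · rw [pv_slot (by omega), if_neg (by omega), div_slot (by omega)]
    exact ⟨by omega, rfl⟩

theorem lt_of_div {m n s : ℕ} (hm : 0 < m) : s < n * m ↔ s / m < n :=
  (Nat.div_lt_iff_lt_mul hm).symm

theorem nx_lt {m n s : ℕ} (hm : 0 < m) (h : s < n * m) : nx m s < n * m := by
  rw [lt_of_div hm, (pv_nx hm s).2, ← lt_of_div hm]; exact h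

theorem pv_lt {m n s : ℕ} (hm : 0 < m) (h : s < n * m) : pv m s < n * m := by
  rw [lt_of_div hm, (nx_pv hm s).2, ← lt_of_div hm]; exact h

theorem mem_verts {v : ℕ} : v ∈ verts φ ↔ (∃ s < KK φ, v = 3 * s) ∨ (∃ s < KK φ, v = 3 * s + 1) ∨
    ∃ j < φ.length, v = 3 * j + 2 := by
  simp only [verts, List.mem_append, List.mem_map, List.mem_range, eq_comm]

theorem mem_edges1 {e : ℕ × ℕ} : e ∈ edges1 φ ↔ (∃ s < KK φ, e = (3 * s, 3 * s)) ∨
    (∃ s < KK φ, e = (3 * s + 1, 3 * s)) ∨ (∃ s < KK φ, e = (3 * s + 1, 3 * s + 1)) ∨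
    (∃ s < KK φ, e = (3 * nx φ.length s, 3 * s + 1)) ∨
    ∃ j < φ.length, e = (3 * j + 2, 3 * j + 2) := by
  simp only [edges1, List.mem_append, List.mem_map, List.mem_range, eq_comm]

theorem mem_edges2 {e : ℕ × ℕ} : e ∈ edges2 φ ↔
    (∃ s < KK φ, occ φ true s = true ∧ e = (3 * s, 3 * (s % φ.length) + 2)) ∨
    (∃ s < KK φ, occ φ false s = true ∧ e = (3 * s + 1, 3 * (s % φ.length) + 2)) ∨
    ∃ s < KK φ, (occ φ true s = true ∨ occ φ false s = true) ∧
      e = (3 * (s % φ.length) + 2, 3 * s) := by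
  simp only [edges2, List.mem_append, List.mem_map, List.mem_range, List.mem_filter,
    Bool.or_eq_true, and_assoc, eq_comm (b := e)]

theorem mem_edges {e : ℕ × ℕ} {c : Bool} : (e, c) ∈ edges φ ↔
    (c = true ∧ e ∈ edges1 φ) ∨ (c = false ∧ e ∈ edges2 φ) := by
  simp only [edges, List.mem_append, List.mem_map, Prod.mk.injEq]
  constructor
  · rintro (⟨a, ha, rfl, rfl⟩ | ⟨a, ha, rfl, rfl⟩)
    · exact Or.inl ⟨rfl, ha⟩
    · exact Or.inr ⟨rfl, ha⟩
  · rintro (⟨rfl, ha⟩ | ⟨rfl, ha⟩)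
    · exact Or.inl ⟨e, ha, rfl, rfl⟩
    · exact Or.inr ⟨e, ha, rfl, rfl⟩

theorem mem_fst {e : ℕ × ℕ} : e ∈ (edges φ).map Prod.fst ↔ e ∈ edges1 φ ∨ e ∈ edges2 φ := by
  simp only [List.mem_map]
  constructor
  · rintro ⟨⟨e', c⟩, he, rfl⟩
    rw [mem_edges] at he
    rcases he with he | he
    · exact Or.inl he.2
    · exact Or.inr he.2
  · rintro (h | h)
    · exact ⟨(e, true), mem_edges.2 (Or.inl ⟨rfl, h⟩), rfl⟩
    · exact ⟨(e, false), mem_edges.2 (Or.inr ⟨rfl, h⟩), rfl⟩

theorem verts_nodup : (verts φ).Nodup := by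
  unfold verts
  refine List.Nodup.append ?_ (List.Nodup.append ?_ ?_ ?_) ?_
  · exact List.Nodup.map (fun a b h => by omega) List.nodup_range
  · exact List.Nodup.map (fun a b h => by omega) List.nodup_range
  · exact List.Nodup.map (fun a b h => by omega) List.nodup_range
  · intro x h1 h2
    simp only [List.mem_map] at h1 h2
    obtain ⟨a, _, h1⟩ := h1
    obtain ⟨b, _, h2⟩ := h2
    omega
  · intro x h1 h2
    simp only [List.mem_map, List.mem_append] at h1 h2
    obtain ⟨a, _, h1⟩ := h1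
    rcases h2 with ⟨b, _, h2⟩ | ⟨b, _, h2⟩ <;> omega

theorem edges_nodup : ((edges φ).map Prod.fst).Nodup := by
  have e : (edges φ).map Prod.fst = edges1 φ ++ edges2 φ := by
    simp [edges, Function.comp_def]
  rw [e]
  have hinj : ∀ (f : ℕ → ℕ × ℕ) (l : List ℕ), l.Nodup → (∀ a b, f a = f b → a = b) →
      (l.map f).Nodup := fun f l hl hf => List.Nodup.map hf hl
  have hr := List.nodup_range (n := KK φ)
  refine List.Nodup.append ?_ ?_ ?_
  · unfold edges1
    refine List.Nodup.append (hinj _ _ hr ?_) (List.Nodup.append (hinj _ _ hr ?_)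
      (List.Nodup.append (hinj _ _ hr ?_) (List.Nodup.append (hinj _ _ hr ?_)
      (hinj _ _ List.nodup_range ?_) ?_) ?_) ?_) ?_
    all_goals first
      | (intro a b hab
         simp only [Prod.mk.injEq] at hab
         omega)
      | (intro x h1 h2
         simp only [List.mem_append, List.mem_map, Prod.ext_iff] at h1 h2
         obtain ⟨a, _, h1, h1'⟩ := h1
         omega)
  · unfold edges2
    refine List.Nodup.append (hinj _ _ (hr.filter _) ?_) (List.Nodup.append
      (hinj _ _ (hr.filter _) ?_) (hinj _ _ (hr.filter _) ?_) ?_) ?_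
    all_goals first
      | (intro a b hab
         simp only [Prod.mk.injEq] at hab
         omega)
      | (intro x h1 h2
         simp only [List.mem_append, List.mem_map, Prod.ext_iff] at h1 h2
         obtain ⟨a, _, h1, h1'⟩ := h1
         rcases h2 with ⟨b, _, h2, h2'⟩ | ⟨b, _, h2, h2'⟩ <;> omega)
  · intro x h1 h2
    rw [mem_edges1] at h1
    rw [mem_edges2] at h2
    simp only [Prod.ext_iff] at h1 h2
    rcases h1 with ⟨a, _, h1, h1'⟩ | ⟨a, _, h1, h1'⟩ | ⟨a, _, h1, h1'⟩ | ⟨a, _, h1, h1'⟩ |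
      ⟨a, _, h1, h1'⟩ <;>
    rcases h2 with ⟨b, _, _, h2, h2'⟩ | ⟨b, _, _, h2, h2'⟩ | ⟨b, _, _, h2, h2'⟩ <;> omega

theorem KK_eq : KK φ = 3 * φ.length * φ.length := rfl

theorem isBip (h : φ ≠ []) : IsBip (red φ) := by
  have hm := KK_pos h
  refine ⟨verts_nodup, verts_nodup, edges_nodup, ?_⟩
  rintro ⟨e, c⟩ he
  have he' : e ∈ edges1 φ ∨ e ∈ edges2 φ := by
    rcases mem_edges.1 he with h1 | h1
    · exact Or.inl h1.2
    · exact Or.inr h1.2
  show e.1 ∈ verts φ ∧ e.2 ∈ verts φ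
  rw [mem_verts, mem_verts]
  rw [mem_edges1, mem_edges2] at he'
  rcases he' with (⟨s, hs, rfl⟩ | ⟨s, hs, rfl⟩ | ⟨s, hs, rfl⟩ | ⟨s, hs, rfl⟩ | ⟨j, hj, rfl⟩) |
    (⟨s, hs, _, rfl⟩ | ⟨s, hs, _, rfl⟩ | ⟨s, hs, _, rfl⟩)
  · exact ⟨Or.inl ⟨s, hs, rfl⟩, Or.inl ⟨s, hs, rfl⟩⟩
  · exact ⟨Or.inr (Or.inl ⟨s, hs, rfl⟩), Or.inl ⟨s, hs, rfl⟩⟩
  · exact ⟨Or.inr (Or.inl ⟨s, hs, rfl⟩), Or.inr (Or.inl ⟨s, hs, rfl⟩)⟩
  · exact ⟨Or.inl ⟨_, nx_lt hm hs, rfl⟩, Or.inr (Or.inl ⟨s, hs, rfl⟩)⟩
  · exact ⟨Or.inr (Or.inr ⟨j, hj, rfl⟩), Or.inr (Or.inr ⟨j, hj, rfl⟩)⟩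
  · exact ⟨Or.inl ⟨s, hs, rfl⟩, Or.inr (Or.inr ⟨_, Nat.mod_lt _ hm, rfl⟩)⟩
  · exact ⟨Or.inr (Or.inl ⟨s, hs, rfl⟩), Or.inr (Or.inr ⟨_, Nat.mod_lt _ hm, rfl⟩)⟩
  · exact ⟨Or.inr (Or.inr ⟨_, Nat.mod_lt _ hm, rfl⟩), Or.inl ⟨s, hs, rfl⟩⟩

/-! ### From a satisfying assignment to a pair of perfect matchings -/

section
variable (m : ℕ) (τ : ℕ → Bool) (σ : ℕ → ℕ)

def f1 (u : ℕ) : ℕ :=
  if u % 3 = 0 then (if τ (u / 3 / m) then 3 * pv m (u / 3) + 1 else u)
  else if u % 3 = 1 then (if τ (u / 3 / m) then 3 * (u / 3) else u) else u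

def g1 (v : ℕ) : ℕ :=
  if v % 3 = 0 then (if τ (v / 3 / m) then v + 1 else v)
  else if v % 3 = 1 then (if τ (v / 3 / m) then 3 * nx m (v / 3) else v) else v

def f2 (u : ℕ) : ℕ :=
  if u % 3 = 0 then (if τ (u / 3 / m) then
      (if u / 3 = σ (u / 3 % m) then 3 * (u / 3 % m) + 2 else u) else 3 * pv m (u / 3) + 1)
  else if u % 3 = 1 then (if τ (u / 3 / m) then u else
      (if u / 3 = σ (u / 3 % m) then 3 * (u / 3 % m) + 2 else 3 * (u / 3)))
  else 3 * σ (u / 3)

def g2 (v : ℕ) : ℕ :=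
  if v % 3 = 0 then
    (if v / 3 = σ (v / 3 % m) then 3 * (v / 3 % m) + 2 else if τ (v / 3 / m) then v else v + 1)
  else if v % 3 = 1 then (if τ (v / 3 / m) then v else 3 * nx m (v / 3))
  else (if τ (σ (v / 3) / m) then 3 * σ (v / 3) else 3 * σ (v / 3) + 1)

theorem d0 (s : ℕ) : 3 * s % 3 = 0 ∧ 3 * s / 3 = s := by omega
theorem d1 (s : ℕ) : (3 * s + 1) % 3 = 1 ∧ (3 * s + 1) / 3 = s := by omega
theorem d2 (s : ℕ) : (3 * s + 2) % 3 = 2 ∧ (3 * s + 2) / 3 = s := by omega

theorem f1_0 (s : ℕ) : f1 m τ (3 * s) = if τ (s / m) then 3 * pv m s + 1 else 3 * s := by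
  simp only [f1, (d0 s).1, (d0 s).2, if_true]
theorem f1_1 (s : ℕ) : f1 m τ (3 * s + 1) = if τ (s / m) then 3 * s else 3 * s + 1 := by
  simp only [f1, (d1 s).1, (d1 s).2, if_true, one_ne_zero, if_false]
theorem f1_2 (s : ℕ) : f1 m τ (3 * s + 2) = 3 * s + 2 := by
  simp [f1, (d2 s).1]
theorem g1_0 (s : ℕ) : g1 m τ (3 * s) = if τ (s / m) then 3 * s + 1 else 3 * s := by
  simp only [g1, (d0 s).1, (d0 s).2, if_true]
theorem g1_1 (s : ℕ) : g1 m τ (3 * s + 1) = if τ (s / m) then 3 * nx m s else 3 * s + 1 := by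
  simp only [g1, (d1 s).1, (d1 s).2, if_true, one_ne_zero, if_false]
theorem g1_2 (s : ℕ) : g1 m τ (3 * s + 2) = 3 * s + 2 := by
  simp [g1, (d2 s).1]
theorem f2_0 (s : ℕ) : f2 m τ σ (3 * s) = if τ (s / m) then
    (if s = σ (s % m) then 3 * (s % m) + 2 else 3 * s) else 3 * pv m s + 1 := by
  simp only [f2, (d0 s).1, (d0 s).2, if_true]
theorem f2_1 (s : ℕ) : f2 m τ σ (3 * s + 1) = if τ (s / m) then 3 * s + 1 else
    (if s = σ (s % m) then 3 * (s % m) + 2 else 3 * s) := by
  simp only [f2, (d1 s).1, (d1 s).2, if_true, one_ne_zero, if_false]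
theorem f2_2 (s : ℕ) : f2 m τ σ (3 * s + 2) = 3 * σ s := by
  simp [f2, (d2 s).1, (d2 s).2]
theorem g2_0 (s : ℕ) : g2 m τ σ (3 * s) = if s = σ (s % m) then 3 * (s % m) + 2 else
    if τ (s / m) then 3 * s else 3 * s + 1 := by
  simp only [g2, (d0 s).1, (d0 s).2, if_true]
theorem g2_1 (s : ℕ) : g2 m τ σ (3 * s + 1) = if τ (s / m) then 3 * s + 1 else 3 * nx m s := by
  simp only [g2, (d1 s).1, (d1 s).2, if_true, one_ne_zero, if_false]
theorem g2_2 (s : ℕ) : g2 m τ σ (3 * s + 2) = if τ (σ s / m) then 3 * σ s else 3 * σ s + 1 := by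
  simp [g2, (d2 s).1, (d2 s).2]

end

theorem exists_pair (h : φ ≠ []) {τ : ℕ → Bool} {σ : ℕ → ℕ}
    (hσ : ∀ j < φ.length, σ j < KK φ ∧ σ j % φ.length = j ∧ occ φ (τ (σ j / φ.length)) (σ j) = true) :
    COL2PM (red φ) := by
  have hm := KK_pos h
  have hnx := fun s => pv_nx hm s
  have hpv := fun s => nx_pv hm s
  have hUmem : ∀ v, v ∈ (red φ).1.1 ↔ (∃ s < KK φ, v = 3 * s) ∨ (∃ s < KK φ, v = 3 * s + 1) ∨
    ∃ j < φ.length, v = 3 * j + 2 := fun v => mem_verts
  have hVmem : ∀ v, v ∈ (red φ).1.2 ↔ (∃ s < KK φ, v = 3 * s) ∨ (∃ s < KK φ, v = 3 * s + 1) ∨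
    ∃ j < φ.length, v = 3 * j + 2 := fun v => mem_verts
  have hcol : ∀ u ∈ (red φ).1.1, (u, f1 φ.length τ u) ∈ edges1 φ := by
    intro u hu
    rw [mem_edges1]
    rcases (hUmem u).1 hu with ⟨s, hs, rfl⟩ | ⟨s, hs, rfl⟩ | ⟨j, hj, rfl⟩
    · rw [f1_0]
      split_ifs with ht
      · right; right; right; left
        exact ⟨_, pv_lt hm hs, by rw [(hpv s).1]⟩
      · left; exact ⟨s, hs, rfl⟩
    · rw [f1_1]
      split_ifs with ht
      · right; left; exact ⟨s, hs, rfl⟩
      · right; right; left; exact ⟨s, hs, rfl⟩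
    · rw [f1_2]
      right; right; right; right; exact ⟨j, hj, rfl⟩
  refine ⟨isBip h, _, _, isPM_of (f1 φ.length τ) (g1 φ.length τ) ?_ ?_ ?_,
    isPM_of (f2 φ.length τ σ) (g2 φ.length τ σ) ?_ ?_ ?_, ?_, ?_⟩
  · intro u hu
    exact mem_fst.2 (Or.inl (hcol u hu))
  · intro v hv
    rw [hUmem]
    rcases (hVmem v).1 hv with ⟨s, hs, rfl⟩ | ⟨s, hs, rfl⟩ | ⟨j, hj, rfl⟩
    · rw [g1_0]
      split_ifs with ht
      · exact ⟨Or.inr (Or.inl ⟨s, hs, rfl⟩), by rw [f1_1, if_pos ht]⟩
      · exact ⟨Or.inl ⟨s, hs, rfl⟩, by rw [f1_0, if_neg ht]⟩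
    · rw [g1_1]
      split_ifs with ht
      · refine ⟨Or.inl ⟨_, nx_lt hm hs, rfl⟩, ?_⟩
        rw [f1_0, (hnx s).2, if_pos ht, (hnx s).1]
      · exact ⟨Or.inr (Or.inl ⟨s, hs, rfl⟩), by rw [f1_1, if_neg ht]⟩
    · rw [g1_2]
      exact ⟨Or.inr (Or.inr ⟨j, hj, rfl⟩), f1_2 _ _ _⟩
  · intro u hu
    rcases (hUmem u).1 hu with ⟨s, hs, rfl⟩ | ⟨s, hs, rfl⟩ | ⟨j, hj, rfl⟩
    · rw [f1_0]
      split_ifs with ht
      · rw [g1_1, (hpv s).2, if_pos ht, (hpv s).1]
      · rw [g1_0, if_neg ht]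
    · rw [f1_1]
      split_ifs with ht
      · rw [g1_0, if_pos ht]
      · rw [g1_1, if_neg ht]
    · rw [f1_2, g1_2]
  · intro u hu
    show _ ∈ (edges φ).map Prod.fst
    rw [mem_fst, mem_edges1, mem_edges2]
    rcases (hUmem u).1 hu with ⟨s, hs, rfl⟩ | ⟨s, hs, rfl⟩ | ⟨j, hj, rfl⟩
    · rw [f2_0]
      split_ifs with ht he
      · right; left
        have := (hσ (s % φ.length) (Nat.mod_lt _ hm)).2.2
        rw [← he, ht] at this
        exact ⟨s, hs, this, rfl⟩
      · left; left; exact ⟨s, hs, rfl⟩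
      · left; right; right; right; left
        exact ⟨_, pv_lt hm hs, by rw [(hpv s).1]⟩
    · rw [f2_1]
      split_ifs with ht he
      · left; right; right; left; exact ⟨s, hs, rfl⟩
      · right; right; left
        have := (hσ (s % φ.length) (Nat.mod_lt _ hm)).2.2
        rw [← he] at this
        have hf : τ (s / φ.length) = false := by simpa using ht
        rw [hf] at this
        exact ⟨s, hs, this, rfl⟩
      · left; right; left; exact ⟨s, hs, rfl⟩
    · rw [f2_2]
      right; right; right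
      obtain ⟨h1, h2, h3⟩ := hσ j hj
      refine ⟨σ j, h1, ?_, by rw [h2]⟩
      cases ht : τ (σ j / φ.length) <;> rw [ht] at h3
      · exact Or.inr h3
      · exact Or.inl h3
  · intro v hv
    rw [hUmem]
    rcases (hVmem v).1 hv with ⟨s, hs, rfl⟩ | ⟨s, hs, rfl⟩ | ⟨j, hj, rfl⟩
    · rw [g2_0]
      split_ifs with he ht
      · refine ⟨Or.inr (Or.inr ⟨_, Nat.mod_lt _ hm, rfl⟩), ?_⟩
        rw [f2_2, ← he]
      · exact ⟨Or.inl ⟨s, hs, rfl⟩, by rw [f2_0, if_pos ht, if_neg he]⟩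
      · exact ⟨Or.inr (Or.inl ⟨s, hs, rfl⟩), by rw [f2_1, if_neg ht, if_neg he]⟩
    · rw [g2_1]
      split_ifs with ht
      · exact ⟨Or.inr (Or.inl ⟨s, hs, rfl⟩), by rw [f2_1, if_pos ht]⟩
      · refine ⟨Or.inl ⟨_, nx_lt hm hs, rfl⟩, ?_⟩
        rw [f2_0, (hnx s).2, if_neg ht, (hnx s).1]
    · obtain ⟨h1, h2, h3⟩ := hσ j hj
      rw [g2_2]
      split_ifs with ht
      · refine ⟨Or.inl ⟨_, h1, rfl⟩, ?_⟩
        rw [f2_0, if_pos ht, h2, if_pos rfl]
      · refine ⟨Or.inr (Or.inl ⟨_, h1, rfl⟩), ?_⟩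
        rw [f2_1, if_neg ht, h2, if_pos rfl]
  · intro u hu
    rcases (hUmem u).1 hu with ⟨s, hs, rfl⟩ | ⟨s, hs, rfl⟩ | ⟨j, hj, rfl⟩
    · rw [f2_0]
      split_ifs with ht he
      · rw [g2_2, ← he, if_pos ht]
      · rw [g2_0, if_neg he, if_pos ht]
      · rw [g2_1, (hpv s).2, if_neg ht, (hpv s).1]
    · rw [f2_1]
      split_ifs with ht he
      · rw [g2_1, if_pos ht]
      · rw [g2_2, ← he, if_neg ht]
      · rw [g2_0, if_neg he, if_neg ht]
    · obtain ⟨h1, h2, h3⟩ := hσ j hj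
      rw [f2_2, g2_0, h2, if_pos rfl]
  · rw [Finset.disjoint_left]
    intro e he1 he2
    simp only [Finset.mem_image, List.mem_toFinset] at he1 he2
    obtain ⟨u, hu, rfl⟩ := he1
    obtain ⟨u', hu', he⟩ := he2
    simp only [Prod.mk.injEq] at he
    obtain ⟨rfl, he⟩ := he
    rcases (hUmem u').1 hu' with ⟨s, hs, rfl⟩ | ⟨s, hs, rfl⟩ | ⟨j, hj, rfl⟩
    · rw [f2_0, f1_0] at he
      split_ifs at he <;> omega
    · rw [f2_1, f1_1] at he
      split_ifs at he <;> omega
    · rw [f2_2, f1_2] at he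
      omega
  · intro e he
    simp only [Finset.mem_image, List.mem_toFinset] at he
    obtain ⟨u, hu, rfl⟩ := he
    exact mem_edges.2 (Or.inl ⟨rfl, hcol u hu⟩)

/-! ### From a pair of perfect matchings to a satisfying assignment -/

/-- In a set of edges covering `u` exactly once, the edges at `u` coincide. -/
theorem IsPM.uniqueU {B : Bip} {M : Finset (ℕ × ℕ)} (hM : IsPM B M) {u v v' : ℕ} (hu : u ∈ B.1.1)
    (h : (u, v) ∈ M) (h' : (u, v') ∈ M) : v = v' := by
  obtain ⟨e, _, he⟩ := hM.2.1 u hu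
  have h1 := he _ ⟨h, rfl⟩
  have h2 := he _ ⟨h', rfl⟩
  have := h1.trans h2.symm
  simpa using this

theorem IsPM.uniqueV {B : Bip} {M : Finset (ℕ × ℕ)} (hM : IsPM B M) {u u' v : ℕ} (hv : v ∈ B.1.2)
    (h : (u, v) ∈ M) (h' : (u', v) ∈ M) : u = u' := by
  obtain ⟨e, _, he⟩ := hM.2.2 v hv
  have h1 := he _ ⟨h, rfl⟩
  have h2 := he _ ⟨h', rfl⟩
  have := h1.trans h2.symm
  simpa using this

theorem assign_of_pair (h : φ ≠ []) (hd : Distinct3 φ)
    (hc : COL2PM (red φ)) : SAT3 φ := by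
  have hm := KK_pos h
  obtain ⟨_, M₁, M₂, h1, h2, hdis, hcol⟩ := hc
  have hU : ∀ v, v ∈ verts φ → v ∈ (red φ).1.1 := fun v hv => hv
  have hV : ∀ v, v ∈ verts φ → v ∈ (red φ).1.2 := fun v hv => hv
  have mu : ∀ s < KK φ, 3 * s ∈ verts φ := fun s hs => mem_verts.2 (Or.inl ⟨s, hs, rfl⟩)
  have my : ∀ s < KK φ, 3 * s + 1 ∈ verts φ := fun s hs =>
    mem_verts.2 (Or.inr (Or.inl ⟨s, hs, rfl⟩))
  have mq : ∀ j < φ.length, 3 * j + 2 ∈ verts φ := fun s hs =>
    mem_verts.2 (Or.inr (Or.inr ⟨s, hs, rfl⟩))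
  have hM1 : ∀ e ∈ M₁, e ∈ edges1 φ := by
    intro e he
    rcases mem_edges.1 (hcol e he) with h3 | h3
    · exact h3.2
    · exact absurd h3.1 (by simp)
  have hM2 : ∀ e ∈ M₂, e ∈ edges1 φ ∨ e ∈ edges2 φ := fun e he => mem_fst.1 (h2.1 e he)
  -- `M₁` on a cycle
  have cV0 : ∀ s < KK φ, (3 * s, 3 * s) ∈ M₁ ∨ (3 * s + 1, 3 * s) ∈ M₁ := by
    intro s hs
    obtain ⟨⟨u, v⟩, ⟨he, hev⟩, _⟩ := h1.2.2 (3 * s) (hV _ (mu s hs))
    simp only at hev
    subst hev
    have h3 := hM1 _ he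
    rw [mem_edges1] at h3
    simp only [Prod.mk.injEq] at h3
    rcases h3 with ⟨t, _, h3, h4⟩ | ⟨t, _, h3, h4⟩ | ⟨t, _, h3, h4⟩ | ⟨t, _, h3, h4⟩ |
      ⟨t, _, h3, h4⟩
    · left; rwa [show u = 3 * s by omega] at he
    · right; rwa [show u = 3 * s + 1 by omega] at he
    · omega
    · omega
    · omega
  have cU1 : ∀ s < KK φ, (3 * s + 1, 3 * s) ∈ M₁ ∨ (3 * s + 1, 3 * s + 1) ∈ M₁ := by
    intro s hs
    obtain ⟨⟨u, v⟩, ⟨he, hev⟩, _⟩ := h1.2.1 (3 * s + 1) (hU _ (my s hs))
    simp only at hev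
    subst hev
    have h3 := hM1 _ he
    rw [mem_edges1] at h3
    simp only [Prod.mk.injEq] at h3
    rcases h3 with ⟨t, _, h3, h4⟩ | ⟨t, _, h3, h4⟩ | ⟨t, _, h3, h4⟩ | ⟨t, _, h3, h4⟩ |
      ⟨t, _, h3, h4⟩
    · omega
    · left; rwa [show v = 3 * s by omega] at he
    · right; rwa [show v = 3 * s + 1 by omega] at he
    · omega
    · omega
  have cV1 : ∀ s < KK φ, (3 * s + 1, 3 * s + 1) ∈ M₁ ∨ (3 * nx φ.length s, 3 * s + 1) ∈ M₁ := by
    intro s hs
    obtain ⟨⟨u, v⟩, ⟨he, hev⟩, _⟩ := h1.2.2 (3 * s + 1) (hV _ (my s hs))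
    simp only at hev
    subst hev
    have h3 := hM1 _ he
    rw [mem_edges1] at h3
    simp only [Prod.mk.injEq] at h3
    rcases h3 with ⟨t, _, h3, h4⟩ | ⟨t, _, h3, h4⟩ | ⟨t, _, h3, h4⟩ | ⟨t, _, h3, h4⟩ |
      ⟨t, _, h3, h4⟩
    · omega
    · omega
    · left; rwa [show u = 3 * s + 1 by omega] at he
    · right
      obtain rfl : t = s := by omega
      rwa [h3] at he
    · omega
  have cU0 : ∀ s < KK φ, (3 * s, 3 * s) ∈ M₁ ∨ (3 * s, 3 * pv φ.length s + 1) ∈ M₁ := by
    intro s hs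
    obtain ⟨⟨u, v⟩, ⟨he, hev⟩, _⟩ := h1.2.1 (3 * s) (hU _ (mu s hs))
    simp only at hev
    subst hev
    have h3 := hM1 _ he
    rw [mem_edges1] at h3
    simp only [Prod.mk.injEq] at h3
    rcases h3 with ⟨t, _, h3, h4⟩ | ⟨t, _, h3, h4⟩ | ⟨t, _, h3, h4⟩ | ⟨t, _, h3, h4⟩ |
      ⟨t, _, h3, h4⟩
    · left; rwa [show v = 3 * s by omega] at he
    · omega
    · omega
    · right
      have : s = nx φ.length t := by omega
      rw [this, (pv_nx hm t).1]
      rwa [this, h4] at he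
    · omega
  -- the edge `a(s)` determines the others
  have hb' : ∀ s < KK φ, (3 * s, 3 * s) ∉ M₁ → (3 * s + 1, 3 * s) ∈ M₁ := fun s hs hn =>
    (cV0 s hs).resolve_left hn
  have ha' : ∀ s < KK φ, (3 * s, 3 * s) ∈ M₁ → (3 * s + 1, 3 * s + 1) ∈ M₁ := by
    intro s hs ha
    refine (cU1 s hs).resolve_left fun h3 => ?_
    have := h1.uniqueV (hV _ (mu s hs)) ha h3
    omega
  have hstep : ∀ s < KK φ, (3 * s, 3 * s) ∈ M₁ ↔
      (3 * nx φ.length s, 3 * nx φ.length s) ∈ M₁ := by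
    intro s hs
    constructor
    · intro ha
      have h3 := ha' s hs ha
      refine (cU0 _ (nx_lt hm hs)).resolve_right fun h4 => ?_
      rw [(pv_nx hm s).1] at h4
      have := h1.uniqueV (hV _ (my s hs)) h3 h4
      omega
    · intro ha
      by_contra hn
      have h3 := hb' s hs hn
      have h4 : (3 * s + 1, 3 * s + 1) ∉ M₁ := by
        intro h5
        have := h1.uniqueU (hU _ (my s hs)) h3 h5
        omega
      have h5 := (cV1 s hs).resolve_left h4
      have := h1.uniqueU (hU _ (mu _ (nx_lt hm hs))) ha h5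
      omega
  have hblock : ∀ x, x < 3 * φ.length → ∀ j, j < φ.length →
      ((3 * (φ.length * x + j), 3 * (φ.length * x + j)) ∈ M₁ ↔
        (3 * (φ.length * x), 3 * (φ.length * x)) ∈ M₁) := by
    intro x hx j
    induction j with
    | zero => intro _; rw [add_zero]
    | succ j ih =>
      intro hj
      have h3 := hstep (φ.length * x + j) (slot_lt (by omega) hx)
      rw [nx_slot (by omega), if_neg (by omega)] at h3
      rw [← ih (by omega), h3]
  set τ : ℕ → Bool := fun x => !decide ((3 * (φ.length * x), 3 * (φ.length * x)) ∈ M₁) with hτ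
  have hτs : ∀ s < KK φ, (τ (s / φ.length) = true ↔ (3 * s, 3 * s) ∉ M₁) := by
    intro s hs
    have h3 := hblock (s / φ.length) ((lt_of_div hm).1 hs) (s % φ.length) (Nat.mod_lt _ hm)
    rw [← slot_eq] at h3
    simp only [hτ, Bool.not_eq_true', decide_eq_false_iff_not]
    rw [h3]
  refine ⟨τ, ?_⟩
  intro c hcφ
  obtain ⟨j, hj, hjc⟩ := List.getElem_of_mem hcφ
  have hgd : φ.getD j ((true, 0), (true, 0), (true, 0)) = c := by
    rw [List.getD_eq_getElem _ _ hj, hjc]
  -- the edge of `M₂` at `q(j)`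
  obtain ⟨⟨u, v⟩, ⟨he, hev⟩, _⟩ := h2.2.1 (3 * j + 2) (hU _ (mq j hj))
  simp only at hev
  subst hev
  have hq1 : (3 * j + 2, 3 * j + 2) ∈ M₁ := by
    obtain ⟨⟨u, v'⟩, ⟨he', hev'⟩, _⟩ := h1.2.1 (3 * j + 2) (hU _ (mq j hj))
    simp only at hev'
    subst hev'
    have h3 := hM1 _ he'
    rw [mem_edges1] at h3
    simp only [Prod.mk.injEq] at h3
    rcases h3 with ⟨t, _, h3, h4⟩ | ⟨t, _, h3, h4⟩ | ⟨t, _, h3, h4⟩ | ⟨t, _, h3, h4⟩ |
      ⟨t, _, h3, h4⟩
    · omega
    · omega
    · omega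
    · omega
    · rwa [show v' = 3 * j + 2 by omega] at he'
  have hex : ∃ s < KK φ, (occ φ true s = true ∨ occ φ false s = true) ∧ s % φ.length = j ∧
      v = 3 * s := by
    rcases hM2 _ he with h3 | h3
    · rw [mem_edges1] at h3
      simp only [Prod.mk.injEq] at h3
      rcases h3 with ⟨t, _, h3, h4⟩ | ⟨t, _, h3, h4⟩ | ⟨t, _, h3, h4⟩ | ⟨t, _, h3, h4⟩ |
        ⟨t, _, h3, h4⟩
      · omega
      · omega
      · omega
      · omega
      · exfalso
        rw [show v = 3 * j + 2 by omega] at he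
        exact Finset.disjoint_left.1 hdis hq1 he
    · rw [mem_edges2] at h3
      simp only [Prod.mk.injEq] at h3
      rcases h3 with ⟨t, _, _, h3, h4⟩ | ⟨t, _, _, h3, h4⟩ | ⟨t, ht, hoc, h3, h4⟩
      · omega
      · omega
      · exact ⟨t, ht, hoc, by omega, h4⟩
  obtain ⟨s, hs, hoc, hsj, rfl⟩ := hex
  -- not both literals occur
  have hnb : ¬ (occ φ true s = true ∧ occ φ false s = true) := by
    rintro ⟨o1, o2⟩
    simp only [occ, decide_eq_true_eq, hsj, hgd, lits, List.mem_cons, List.not_mem_nil,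
      or_false] at o1 o2
    obtain ⟨e1, e2, e3⟩ := hd c hcφ
    simp only [Prod.ext_iff] at o1 o2
    rcases o1 with o1 | o1 | o1 <;> rcases o2 with o2 | o2 | o2
    · exact absurd (o1.1.trans o2.1.symm) (by simp)
    · exact e1 (o1.2.symm.trans o2.2)
    · exact e2 (o1.2.symm.trans o2.2)
    · exact e1 (o2.2.symm.trans o1.2)
    · exact absurd (o1.1.trans o2.1.symm) (by simp)
    · exact e3 (o1.2.symm.trans o2.2)
    · exact e2 (o2.2.symm.trans o1.2)
    · exact e3 (o2.2.symm.trans o1.2)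
    · exact absurd (o1.1.trans o2.1.symm) (by simp)
  have key : occ φ (τ (s / φ.length)) s = true := by
    by_cases hA : (3 * s, 3 * s) ∈ M₁
    · have hf : τ (s / φ.length) = false := by
        by_contra hne
        exact ((hτs s hs).1 (by simpa using hne)) hA
      rw [hf]
      by_contra hneg
      have hpos : occ φ true s = true := hoc.resolve_right hneg
      -- `y(s)` is not covered by `M₂`
      obtain ⟨⟨u, v⟩, ⟨he', hev⟩, _⟩ := h2.2.1 (3 * s + 1) (hU _ (my s hs))
      simp only at hev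
      subst hev
      rcases hM2 _ he' with h3 | h3
      · rw [mem_edges1] at h3
        simp only [Prod.mk.injEq] at h3
        rcases h3 with ⟨t, _, h3, h4⟩ | ⟨t, _, h3, h4⟩ | ⟨t, _, h3, h4⟩ | ⟨t, _, h3, h4⟩ |
          ⟨t, _, h3, h4⟩
        · omega
        · rw [show v = 3 * s by omega] at he'
          have := h2.uniqueV (hV _ (mu s hs)) he he'
          omega
        · rw [show v = 3 * s + 1 by omega] at he'
          exact Finset.disjoint_left.1 hdis (ha' s hs hA) he'
        · omega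
        · omega
      · rw [mem_edges2] at h3
        simp only [Prod.mk.injEq] at h3
        rcases h3 with ⟨t, _, _, h3, h4⟩ | ⟨t, _, ho, h3, h4⟩ | ⟨t, ht, _, h3, h4⟩
        · omega
        · rw [show t = s by omega] at ho
          exact hneg ho
        · omega
    · have hf : τ (s / φ.length) = true := (hτs s hs).2 hA
      rw [hf]
      by_contra hpos
      have hneg : occ φ false s = true := hoc.resolve_left hpos
      -- `u(s)` is not covered by `M₂`
      obtain ⟨⟨u, v⟩, ⟨he', hev⟩, _⟩ := h2.2.1 (3 * s) (hU _ (mu s hs))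
      simp only at hev
      subst hev
      rcases hM2 _ he' with h3 | h3
      · rw [mem_edges1] at h3
        simp only [Prod.mk.injEq] at h3
        rcases h3 with ⟨t, _, h3, h4⟩ | ⟨t, _, h3, h4⟩ | ⟨t, _, h3, h4⟩ | ⟨t, _, h3, h4⟩ |
          ⟨t, _, h3, h4⟩
        · rw [show v = 3 * s by omega] at he'
          have := h2.uniqueV (hV _ (mu s hs)) he he'
          omega
        · omega
        · omega
        · have hst : s = nx φ.length t := by omega
          have h5 := (cU0 s hs).resolve_left hA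
          have h6 : pv φ.length s = t := by rw [hst, (pv_nx hm t).1]
          rw [h6, ← h4] at h5
          exact Finset.disjoint_left.1 hdis h5 he'
        · omega
      · rw [mem_edges2] at h3
        simp only [Prod.mk.injEq] at h3
        rcases h3 with ⟨t, _, ho, h3, h4⟩ | ⟨t, _, _, h3, h4⟩ | ⟨t, ht, _, h3, h4⟩
        · rw [show t = s by omega] at ho
          exact hpos ho
        · omega
        · omega
  simp only [occ, decide_eq_true_eq, hsj, hgd, lits, List.mem_cons, List.not_mem_nil,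
    or_false] at key
  rcases key with k | k | k
  · left
    rw [← k]
  · right; left
    rw [← k]
  · right; right
    rw [← k]

theorem pair_of_assign (h : φ ≠ []) (hb : Bounded3 φ) (hs : SAT3 φ) : COL2PM (red φ) := by
  have hm := KK_pos h
  obtain ⟨τ, hτ⟩ := hs
  have key : ∀ j, ∃ s, j < φ.length → s < KK φ ∧ s % φ.length = j ∧
      occ φ (τ (s / φ.length)) s = true := by
    intro j
    by_cases hj : j < φ.length
    swap
    · exact ⟨0, fun h => absurd h hj⟩
    have hgd : φ.getD j ((true, 0), (true, 0), (true, 0)) = φ[j] := List.getD_eq_getElem _ _ hj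
    have hc : φ[j] ∈ φ := List.getElem_mem hj
    obtain ⟨b1, b2, b3⟩ := hb _ hc
    have hmk : ∀ x, x < 3 * φ.length → (τ x, x) ∈ lits φ[j] → ∃ s, j < φ.length → s < KK φ ∧
        s % φ.length = j ∧ occ φ (τ (s / φ.length)) s = true := by
      intro x hx hmem
      refine ⟨φ.length * x + j, fun _ => ⟨slot_lt hj hx, mod_slot hj, ?_⟩⟩
      simp only [occ, decide_eq_true_eq]
      rw [div_slot hj, mod_slot hj, hgd]
      exact hmem
    rcases hτ _ hc with h1 | h1 | h1
    · exact hmk _ b1 (by simp [lits, h1])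
    · exact hmk _ b2 (by simp [lits, h1])
    · exact hmk _ b3 (by simp [lits, h1])
  choose σ hσ using key
  exact exists_pair h (τ := τ) (σ := σ) hσ

end

/-! ### The reduction is computable in polynomial time -/

theorem upoly_KK : UPoly (fun φ : Form => KK φ) := by
  unfold KK
  exact ((UPoly.const 3).mul (UPoly.length Poly.id)).mul (UPoly.length Poly.id)

theorem poly_rangeKK : Poly (fun φ : Form => List.range (KK φ)) := upoly_KK.range

theorem poly_occ : Poly (fun p : Form × (Bool × ℕ) => occ p.1 p.2.1 p.2.2) := by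
  unfold occ lits
  fun_prop

theorem poly_verts : Poly verts := by
  unfold verts
  have h := poly_rangeKK
  have h2 : Poly (fun φ : Form => List.range φ.length) := Poly.range_length Poly.id
  fun_prop

theorem poly_nx : Poly (fun p : ℕ × ℕ => nx p.1 p.2) := by
  unfold nx
  fun_prop

theorem poly_edges1 : Poly edges1 := by
  unfold edges1
  have h := poly_rangeKK
  have h2 : Poly (fun φ : Form => List.range φ.length) := Poly.range_length Poly.id
  have h3 : Poly (fun p : Form × ℕ => nx p.1.length p.2) :=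
    poly_nx.comp (Poly.pair (Poly.length (Poly.fst Poly.id)) (Poly.snd Poly.id))
  have e1 : Poly (fun p : Form × ℕ => ((3 * p.2, 3 * p.2) : ℕ × ℕ)) := by fun_prop
  have e2 : Poly (fun p : Form × ℕ => ((3 * p.2 + 1, 3 * p.2) : ℕ × ℕ)) := by fun_prop
  have e3 : Poly (fun p : Form × ℕ => ((3 * p.2 + 1, 3 * p.2 + 1) : ℕ × ℕ)) := by fun_prop
  have e4 : Poly (fun p : Form × ℕ => ((3 * nx p.1.length p.2, 3 * p.2 + 1) : ℕ × ℕ)) := by
    fun_prop
  have e5 : Poly (fun p : Form × ℕ => ((3 * p.2 + 2, 3 * p.2 + 2) : ℕ × ℕ)) := by fun_prop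
  have p1 : Poly (fun φ : Form => (List.range (KK φ)).map (fun s => (3 * s, 3 * s))) :=
    Poly.map (F := fun _ s => (3 * s, 3 * s)) h e1
  have p2 : Poly (fun φ : Form => (List.range (KK φ)).map (fun s => (3 * s + 1, 3 * s))) :=
    Poly.map (F := fun _ s => (3 * s + 1, 3 * s)) h e2
  have p3 : Poly (fun φ : Form => (List.range (KK φ)).map (fun s => (3 * s + 1, 3 * s + 1))) :=
    Poly.map (F := fun _ s => (3 * s + 1, 3 * s + 1)) h e3
  have p4 : Poly (fun φ : Form => (List.range (KK φ)).map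
      (fun s => (3 * nx φ.length s, 3 * s + 1))) :=
    Poly.map (F := fun (φ : Form) s => (3 * nx φ.length s, 3 * s + 1)) h e4
  have p5 : Poly (fun φ : Form => (List.range φ.length).map (fun s => (3 * s + 2, 3 * s + 2))) :=
    Poly.map (F := fun _ s => (3 * s + 2, 3 * s + 2)) h2 e5
  have q4 := Poly.append p4 p5
  have q3 := Poly.append p3 q4
  have q2 := Poly.append p2 q3
  exact Poly.append p1 q2

theorem poly_edges2 : Poly edges2 := by
  unfold edges2
  have h := poly_rangeKK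
  have h3 : ∀ b : Bool, Poly (fun p : Form × ℕ => occ p.1 b p.2) := fun b =>
    poly_occ.comp (Poly.pair (Poly.fst Poly.id) (Poly.pair (Poly.const b) (Poly.snd Poly.id)))
  have h4 := h3 true
  have h5 := h3 false
  fun_prop

theorem poly_edges : Poly edges := by
  unfold edges
  have h1 := poly_edges1
  have h2 := poly_edges2
  fun_prop

theorem poly_red : Poly red := by
  unfold red
  have h1 := poly_verts
  have h2 := poly_edges
  fun_prop

theorem hardPr_COL2PM : HardPr IsBip COL2PM :=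
  hardPr_SAT3b.trans poly_red (fun _ h => isBip h.2.2) fun _ h =>
    ⟨pair_of_assign h.2.2 h.2.1, assign_of_pair h.2.2 h.1⟩

/-! ### Membership in `NP` -/

/-- the test for repetitions -/
def nodupB (l : List ℕ) : Bool :=
  (List.range l.length).all fun i => (List.range l.length).all fun j =>
    decide (i = j) || !decide (l.getD i 0 = l.getD j 0)

def nodupB2 (l : List (ℕ × ℕ)) : Bool :=
  (List.range l.length).all fun i => (List.range l.length).all fun j =>
    decide (i = j) || !decide (l.getD i (0, 0) = l.getD j (0, 0))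

theorem nodup_test {α : Type} [DecidableEq α] (l : List α) (d : α) :
    ((List.range l.length).all fun i => (List.range l.length).all fun j =>
      decide (i = j) || !decide (l.getD i d = l.getD j d)) = true ↔ l.Nodup := by
  rw [List.nodup_iff_injective_getElem]
  simp only [List.all_eq_true, List.mem_range, Bool.or_eq_true, decide_eq_true_eq,
    Bool.not_eq_true', decide_eq_false_iff_not]
  constructor
  · intro h i j hij
    rcases h i i.2 j j.2 with h1 | h1
    · exact Fin.ext h1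
    · rw [List.getD_eq_getElem _ _ i.2, List.getD_eq_getElem _ _ j.2] at h1
      exact absurd hij h1
  · intro h i hi j hj
    by_cases hij : i = j
    · exact Or.inl hij
    · right
      rw [List.getD_eq_getElem _ _ hi, List.getD_eq_getElem _ _ hj]
      intro he
      have := @h ⟨i, hi⟩ ⟨j, hj⟩ he
      simp only [Fin.mk.injEq] at this
      exact hij this

/-- the test of one matching -/
def pmB (B : Bip) (l : List (ℕ × ℕ)) : Bool :=
  l.all (fun e => decide (e ∈ B.2.map Prod.fst)) &&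
  (B.1.1.all (fun u => l.any fun e => decide (e.1 = u)) &&
  (B.1.2.all (fun v => l.any fun e => decide (e.2 = v)) &&
  l.all (fun e => l.all fun e' =>
    decide (e = e') || (!decide (e.1 = e'.1) && !decide (e.2 = e'.2)))))

def check (p : Bip × (List (ℕ × ℕ) × List (ℕ × ℕ))) : Bool :=
  (nodupB p.1.1.1 && (nodupB p.1.1.2 && (nodupB2 (p.1.2.map Prod.fst) &&
    p.1.2.all (fun e => decide (e.1.1 ∈ p.1.1.1) && decide (e.1.2 ∈ p.1.1.2))))) &&
  (pmB p.1 p.2.1 && (pmB p.1 p.2.2 && (p.2.1.all (fun e => !decide (e ∈ p.2.2)) &&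
    p.2.1.all (fun e => decide ((e, true) ∈ p.1.2)))))

theorem poly_nodupB {α : Type} [TEnc α] {l : α → List ℕ} (hl : Poly l) :
    Poly (fun a => nodupB (l a)) := by
  refine Poly.all (p := fun a i => (List.range (l a).length).all fun j =>
    decide (i = j) || !decide ((l a).getD i 0 = (l a).getD j 0)) (Poly.range_length hl) ?_
  refine Poly.all (p := fun (p : α × ℕ) j =>
    decide (p.2 = j) || !decide ((l p.1).getD p.2 0 = (l p.1).getD j 0))
    (Poly.range_length (hl.comp (Poly.fst Poly.id))) ?_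
  have h1 : Poly (fun p : (α × ℕ) × ℕ => p.1.2) := Poly.snd (Poly.fst Poly.id)
  have h2 : Poly (fun p : (α × ℕ) × ℕ => p.2) := Poly.snd Poly.id
  have h3 : Poly (fun p : (α × ℕ) × ℕ => l p.1.1) := hl.comp (Poly.fst (Poly.fst Poly.id))
  exact Poly.or (Poly.decide_eq h1 h2) (Poly.not (Poly.decide_eq (Poly.getD h3 h1 (Poly.const 0))
    (Poly.getD h3 h2 (Poly.const 0))))

theorem poly_nodupB2 {α : Type} [TEnc α] {l : α → List (ℕ × ℕ)} (hl : Poly l) :
    Poly (fun a => nodupB2 (l a)) := by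
  refine Poly.all (p := fun a i => (List.range (l a).length).all fun j =>
    decide (i = j) || !decide ((l a).getD i (0, 0) = (l a).getD j (0, 0))) (Poly.range_length hl) ?_
  refine Poly.all (p := fun (p : α × ℕ) j =>
    decide (p.2 = j) || !decide ((l p.1).getD p.2 (0, 0) = (l p.1).getD j (0, 0)))
    (Poly.range_length (hl.comp (Poly.fst Poly.id))) ?_
  have h1 : Poly (fun p : (α × ℕ) × ℕ => p.1.2) := Poly.snd (Poly.fst Poly.id)
  have h2 : Poly (fun p : (α × ℕ) × ℕ => p.2) := Poly.snd Poly.id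
  have h3 : Poly (fun p : (α × ℕ) × ℕ => l p.1.1) := hl.comp (Poly.fst (Poly.fst Poly.id))
  exact Poly.or (Poly.decide_eq h1 h2) (Poly.not (Poly.decide_eq (Poly.getD h3 h1 (Poly.const (0, 0)))
    (Poly.getD h3 h2 (Poly.const (0, 0)))))

theorem poly_pmB {α : Type} [TEnc α] {B : α → Bip} {l : α → List (ℕ × ℕ)} (hB : Poly B)
    (hl : Poly l) : Poly (fun a => pmB (B a) (l a)) := by
  unfold pmB
  fun_prop

theorem poly_check : Poly check := by
  unfold check
  refine Poly.and (Poly.and (poly_nodupB (by fun_prop)) (Poly.and (poly_nodupB (by fun_prop))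
    (Poly.and (poly_nodupB2 (by fun_prop)) (by fun_prop)))) (Poly.and (poly_pmB (by fun_prop)
    (by fun_prop)) (Poly.and (poly_pmB (by fun_prop) (by fun_prop)) (by fun_prop)))

theorem pmB_iff {B : Bip} (hB : IsBip B) (l : List (ℕ × ℕ)) :
    pmB B l = true ↔ IsPM B l.toFinset := by
  unfold pmB IsPM
  simp only [Bool.and_eq_true, List.all_eq_true, decide_eq_true_eq, List.any_eq_true,
    Bool.or_eq_true, Bool.not_eq_true', decide_eq_false_iff_not, List.mem_toFinset]
  constructor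
  · rintro ⟨h1, h2, h3, h4⟩
    refine ⟨h1, ?_, ?_⟩
    · intro u hu
      obtain ⟨e, he, heu⟩ := h2 u hu
      refine ⟨e, ⟨he, heu⟩, ?_⟩
      rintro e' ⟨he', heu'⟩
      rcases h4 e' he' e he with h5 | h5
      · exact h5
      · exact absurd (heu'.trans heu.symm) h5.1
    · intro v hv
      obtain ⟨e, he, hev⟩ := h3 v hv
      refine ⟨e, ⟨he, hev⟩, ?_⟩
      rintro e' ⟨he', hev'⟩
      rcases h4 e' he' e he with h5 | h5
      · exact h5
      · exact absurd (hev'.trans hev.symm) h5.2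
  · rintro ⟨h1, h2, h3⟩
    refine ⟨h1, fun u hu => ?_, fun v hv => ?_, fun e he e' he' => ?_⟩
    · obtain ⟨e, he, _⟩ := h2 u hu
      exact ⟨e, he.1, he.2⟩
    · obtain ⟨e, he, _⟩ := h3 v hv
      exact ⟨e, he.1, he.2⟩
    · obtain ⟨b, hb, hbe⟩ := List.mem_map.1 (h1 e he)
      have hin := hB.2.2.2 b hb
      rw [hbe] at hin
      by_cases heq : e = e'
      · exact Or.inl heq
      · refine Or.inr ⟨fun h5 => heq ?_, fun h5 => heq ?_⟩
        · obtain ⟨a, _, ha⟩ := h2 _ hin.1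
          rw [ha e ⟨he, rfl⟩, ha e' ⟨he', h5.symm⟩]
        · obtain ⟨a, _, ha⟩ := h3 _ hin.2
          rw [ha e ⟨he, rfl⟩, ha e' ⟨he', h5.symm⟩]

theorem check_iff (B : Bip) (w : List (ℕ × ℕ) × List (ℕ × ℕ)) : check (B, w) = true ↔
    IsBip B ∧ IsPM B w.1.toFinset ∧ IsPM B w.2.toFinset ∧
      Disjoint w.1.toFinset w.2.toFinset ∧ ∀ e ∈ w.1.toFinset, (e, true) ∈ B.2 := by
  unfold check
  simp only [Bool.and_eq_true]
  have h1 : (nodupB B.1.1 = true ∧ nodupB B.1.2 = true ∧ nodupB2 (B.2.map Prod.fst) = true ∧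
      (B.2.all fun e => decide (e.1.1 ∈ B.1.1) && decide (e.1.2 ∈ B.1.2)) = true) ↔ IsBip B := by
    unfold IsBip nodupB nodupB2
    rw [nodup_test, nodup_test, nodup_test]
    simp only [List.all_eq_true, Bool.and_eq_true, decide_eq_true_eq]
  rw [h1]
  refine and_congr_right fun hB => ?_
  rw [pmB_iff hB, pmB_iff hB]
  refine and_congr_right fun _ => and_congr_right fun _ => ?_
  rw [Finset.disjoint_left]
  simp only [List.all_eq_true, Bool.not_eq_true', decide_eq_false_iff_not, decide_eq_true_eq,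
    List.mem_toFinset]

theorem sz_filter_le {β : Type} [TEnc β] (p : β → Bool) (l : List β) : sz (l.filter p) ≤ sz l := by
  induction l with
  | nil => simp
  | cons b l ih =>
    cases h : p b
    · rw [List.filter_cons_of_neg (by simpa using h)]
      simp only [sz_list_cons]
      omega
    · rw [List.filter_cons_of_pos h]
      simp only [sz_list_cons]
      omega

theorem sz_map_fst_le (l : List ((ℕ × ℕ) × Bool)) : sz (l.map Prod.fst) ≤ sz l := by
  induction l with
  | nil => simp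
  | cons b l ih =>
    rw [List.map_cons]
    simp only [sz_list_cons]
    have : sz b.1 ≤ sz b := by
      obtain ⟨a, c⟩ := b
      simp only [sz_pair]
      omega
    omega

theorem inNP : InNPP COL2PM := by
  refine inNPP_of poly_check (2 * Polynomial.X + 10) fun B => ?_
  constructor
  · rintro ⟨hB, M₁, M₂, h1, h2, h3, h4⟩
    set l := B.2.map Prod.fst with hl
    have hf : ∀ M : Finset (ℕ × ℕ), (∀ e ∈ M, e ∈ l) →
        (l.filter (fun e => decide (e ∈ M))).toFinset = M := by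
      intro M hM
      ext e
      simp only [List.mem_toFinset, List.mem_filter, decide_eq_true_eq]
      exact ⟨fun h => h.2, fun h => ⟨hM e h, h⟩⟩
    refine ⟨(l.filter (fun e => decide (e ∈ M₁)), l.filter (fun e => decide (e ∈ M₂))), ?_, ?_⟩
    · have h5 := sz_filter_le (fun e => decide (e ∈ M₁)) l
      have h6 := sz_filter_le (fun e => decide (e ∈ M₂)) l
      have h7 : sz l ≤ sz B := by
        refine (sz_map_fst_le _).trans ?_
        obtain ⟨V, E⟩ := B
        simp only [sz_pair]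
        omega
      simp only [sz_pair, Polynomial.eval_add, Polynomial.eval_mul, Polynomial.eval_ofNat,
        Polynomial.eval_X]
      omega
    · rw [check_iff]
      rw [hf M₁ h1.1, hf M₂ h2.1]
      exact ⟨hB, h1, h2, h3, h4⟩
  · rintro ⟨w, _, hw⟩
    rw [check_iff] at hw
    exact ⟨hw.1, _, _, hw.2.1, hw.2.2.1, hw.2.2.2.1, hw.2.2.2.2⟩

end Pool.Agent.NPC.PM129
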